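import Pool.Agent.L5helper95.BE.Res
import Pool.Agent.W788.MFP.Gm

/-! Expectations with respect to independent standard Gaussian variables on the torus. -/

set_option autoImplicit false
set_option linter.unusedSectionVars false

open scoped BigOperators
open MeasureTheory ProbabilityTheory

namespace Pool.Agent.L5helper95.BE

open Pool.Agent.W788.MFP.Four
open Pool.Agent.W788.MFP.Gm

variable {κ : Type*} [Fintype κ]

theorem int_mul (x y : κ) : Integrable (fun ξ : κ → ℝ => ξ x * ξ y) (Γ κ) := by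
  have h := int_poly (κ := κ) (MvPolynomial.X x * MvPolynomial.X y)
  simpa using h

theorem int_pw (x : κ) (n : ℕ) : Integrable (fun ξ : κ → ℝ => ξ x ^ n) (Γ κ) := by
  have h := int_poly (κ := κ) (MvPolynomial.X x ^ n)
  simpa using h

theorem E_mul [DecidableEq κ] (x y : κ) :
    ∫ ξ, ξ x * ξ y ∂(Γ κ) = if x = y then 1 else 0 := by
  have h := ibp (κ := κ) (MvPolynomial.X y) x
  simp only [MvPolynomial.eval_X, MvPolynomial.pderiv_X] at h
  rw [h]
  by_cases hxy : x = y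
  · subst hxy
    simp
  · simp [Pi.single_apply, hxy, Ne.symm hxy]

theorem E_sq (x : κ) : ∫ ξ, ξ x ^ 2 ∂(Γ κ) = 1 := by
  classical
  have h := E_mul (κ := κ) x x
  rw [if_pos rfl] at h
  rw [← h]
  refine integral_congr_ae (Filter.Eventually.of_forall fun ξ => ?_)
  simp only
  ring

theorem E_four (x : κ) : ∫ ξ, ξ x ^ 4 ∂(Γ κ) = 3 := by
  classical
  have h := ibp (κ := κ) (MvPolynomial.X x ^ 3) x
  have h1 : ∀ ξ : κ → ℝ, ξ x * MvPolynomial.eval ξ (MvPolynomial.X x ^ 3) = ξ x ^ 4 := by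
    intro ξ
    simp only [map_pow, MvPolynomial.eval_X]
    ring
  have h2 : ∀ ξ : κ → ℝ, MvPolynomial.eval ξ (MvPolynomial.pderiv x
      (MvPolynomial.X x ^ 3 : MvPolynomial κ ℝ)) = 3 * ξ x ^ 2 := by
    intro ξ
    rw [MvPolynomial.pderiv_pow]
    simp
  simp only [h1, h2] at h
  rw [h, integral_const_mul, E_sq]
  norm_num

variable {d L : ℕ} [NeZero L]

theorem Q_expand (μ : ℝ) (ξ : T d L → ℝ) :
    Q μ ξ = ∑ x, ∑ y, K (fun k => (ep k + μ)⁻¹) (x - y) * (ξ x * ξ y) := by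
  unfold Q W Op
  refine Finset.sum_congr rfl fun x _ => ?_
  rw [Finset.mul_sum]
  exact Finset.sum_congr rfl fun y _ => by ring

theorem Q_int (μ : ℝ) : Integrable (fun ξ : T d L → ℝ => Q μ ξ) (Γ (T d L)) := by
  simp only [Q_expand]
  exact integrable_finsetSum _ fun x _ => integrable_finsetSum _ fun y _ =>
    (int_mul x y).const_mul _

theorem E_Q (μ : ℝ) : ∫ ξ, Q μ ξ ∂(Γ (T d L)) = NN d L * gT d L μ := by
  classical
  simp only [Q_expand]
  rw [integral_finsetSum _ fun x _ => integrable_finsetSum _ fun y _ =>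
    (int_mul x y).const_mul _]
  have h1 : ∀ x : T d L, ∫ ξ : T d L → ℝ, ∑ y, K (fun k => (ep k + μ)⁻¹) (x - y) * (ξ x * ξ y)
      ∂(Γ (T d L)) = gT d L μ := by
    intro x
    rw [integral_finsetSum _ fun y _ => (int_mul x y).const_mul _]
    simp only [integral_const_mul, E_mul]
    rw [Finset.sum_eq_single x]
    · rw [if_pos rfl, sub_self, mul_one]
      unfold K gT
      congr 1
      refine Finset.sum_congr rfl fun k _ => ?_
      rw [e_zero, Complex.one_re, mul_one]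
    · intro y _ hy
      rw [if_neg hy.symm, mul_zero]
    · intro h
      exact absurd (Finset.mem_univ x) h
  rw [Finset.sum_congr rfl fun x _ => h1 x, Finset.sum_const, Finset.card_univ, nsmul_eq_mul,
    card_T]

theorem sum_pw_int (n : ℕ) : Integrable (fun ξ : T d L → ℝ => ∑ x, ξ x ^ n) (Γ (T d L)) :=
  integrable_finsetSum _ fun x _ => int_pw x n

theorem E_sum_sq : ∫ ξ, ∑ x, ξ x ^ 2 ∂(Γ (T d L)) = NN d L := by
  rw [integral_finsetSum _ fun x _ => int_pw x 2, Finset.sum_congr rfl fun x _ => E_sq x,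
    Finset.sum_const, Finset.card_univ, nsmul_eq_mul, card_T, mul_one]

theorem E_sum_four : ∫ ξ, ∑ x, ξ x ^ 4 ∂(Γ (T d L)) = 3 * NN d L := by
  rw [integral_finsetSum _ fun x _ => int_pw x 4, Finset.sum_congr rfl fun x _ => E_four x,
    Finset.sum_const, Finset.card_univ, nsmul_eq_mul, card_T, mul_comm]

theorem S_expand (ξ : T d L → ℝ) : (∑ x, ξ x) ^ 2 = ∑ x, ∑ y, ξ x * ξ y := by
  rw [sq, Finset.sum_mul_sum]

theorem S_int : Integrable (fun ξ : T d L → ℝ => (∑ x, ξ x) ^ 2) (Γ (T d L)) := by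
  simp only [S_expand]
  exact integrable_finsetSum _ fun x _ => integrable_finsetSum _ fun y _ => int_mul x y

theorem E_S : ∫ ξ, (∑ x, ξ x) ^ 2 ∂(Γ (T d L)) = NN d L := by
  classical
  simp only [S_expand]
  rw [integral_finsetSum _ fun x _ => integrable_finsetSum _ fun y _ => int_mul x y]
  have h1 : ∀ x : T d L, ∫ ξ : T d L → ℝ, ∑ y, (ξ x * ξ y) ∂(Γ (T d L)) = 1 := by
    intro x
    rw [integral_finsetSum _ fun y _ => int_mul x y]
    simp [E_mul]
  rw [Finset.sum_congr rfl fun x _ => h1 x, Finset.sum_const, Finset.card_univ, nsmul_eq_mul,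
    card_T, mul_one]

/-- averaging an upper bound -/
theorem avg_up (G : Set (T d L → ℝ)) (hG : MeasurableSet G) (e : ℝ) (X : (T d L → ℝ) → ℝ)
    (hX : Integrable X (Γ (T d L))) (hX0 : ∀ ξ, 0 ≤ X ξ) (h : ∀ ξ ∈ G, e ≤ X ξ) :
    e * (Γ (T d L)).real G ≤ ∫ ξ, X ξ ∂(Γ (T d L)) := by
  have h1 : ∫ _ξ in G, e ∂(Γ (T d L)) ≤ ∫ ξ in G, X ξ ∂(Γ (T d L)) :=
    setIntegral_mono_on (integrable_const e).integrableOn hX.integrableOn hG h
  have h2 : ∫ ξ in G, X ξ ∂(Γ (T d L)) ≤ ∫ ξ, X ξ ∂(Γ (T d L)) :=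
    setIntegral_le_integral hX (Filter.Eventually.of_forall hX0)
  rw [setIntegral_const, smul_eq_mul, mul_comm] at h1
  exact h1.trans h2

/-- averaging a lower bound -/
theorem avg_lo (G : Set (T d L → ℝ)) (hG : MeasurableSet G) (e B : ℝ) (hB : 0 < B)
    (Y : (T d L → ℝ) → ℝ) (c : ℝ) (hc : 0 ≤ c) (hY : Integrable Y (Γ (T d L)))
    (hY0 : ∀ ξ, Y ξ ≤ c * ∑ x, ξ x ^ 2) (h : ∀ ξ ∈ G, Y ξ ≤ e) :
    ∫ ξ, Y ξ ∂(Γ (T d L)) - c * (B * (Γ (T d L)).real Gᶜ + 3 / B) * NN d L ≤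
      e * (Γ (T d L)).real G := by
  have h1 : ∫ ξ in G, Y ξ ∂(Γ (T d L)) ≤ ∫ _ξ in G, e ∂(Γ (T d L)) :=
    setIntegral_mono_on hY.integrableOn (integrable_const e).integrableOn hG h
  rw [setIntegral_const, smul_eq_mul, mul_comm] at h1
  have h2 := integral_add_compl hG hY
  have h3 : ∫ ξ in Gᶜ, Y ξ ∂(Γ (T d L)) ≤
      ∫ ξ in Gᶜ, (c * B * NN d L + c / B * ∑ x, ξ x ^ 4) ∂(Γ (T d L)) := by
    apply setIntegral_mono_on hY.integrableOn
      ((integrable_const _).add ((sum_pw_int 4).const_mul _)).integrableOn hG.compl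
    intro ξ _
    refine (hY0 ξ).trans ?_
    have h4 : ∑ x, ξ x ^ 2 ≤ ∑ x, (B + ξ x ^ 4 / B) := by
      refine Finset.sum_le_sum fun x _ => ?_
      have h5 : 0 ≤ (ξ x ^ 2 - B) ^ 2 + ξ x ^ 2 * B := by positivity
      have h6 : B + ξ x ^ 4 / B - ξ x ^ 2 = ((ξ x ^ 2 - B) ^ 2 + ξ x ^ 2 * B) / B := by
        field_simp
        ring
      have h7 : 0 ≤ B + ξ x ^ 4 / B - ξ x ^ 2 := by
        rw [h6]
        positivity
      linarith
    rw [Finset.sum_add_distrib, Finset.sum_const, Finset.card_univ, nsmul_eq_mul, card_T,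
      ← Finset.sum_div] at h4
    calc c * ∑ x, ξ x ^ 2 ≤ c * (NN d L * B + (∑ x, ξ x ^ 4) / B) :=
          mul_le_mul_of_nonneg_left h4 hc
      _ = c * B * NN d L + c / B * ∑ x, ξ x ^ 4 := by ring
  have h4 : ∫ ξ in Gᶜ, (c * B * NN d L + c / B * ∑ x, ξ x ^ 4) ∂(Γ (T d L)) ≤
      c * B * NN d L * (Γ (T d L)).real Gᶜ + c / B * (3 * NN d L) := by
    rw [integral_add (integrable_const _) ((sum_pw_int 4).const_mul _).integrableOn,
      setIntegral_const, smul_eq_mul, mul_comm ((Γ (T d L)).real Gᶜ)]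
    apply add_le_add le_rfl
    rw [integral_const_mul]
    apply mul_le_mul_of_nonneg_left _ (by positivity)
    rw [← E_sum_four]
    exact setIntegral_le_integral (sum_pw_int 4) (Filter.Eventually.of_forall fun ξ =>
      Finset.sum_nonneg fun x _ => by positivity)
  have h5 : c * (B * (Γ (T d L)).real Gᶜ + 3 / B) * NN d L =
      c * B * NN d L * (Γ (T d L)).real Gᶜ + c / B * (3 * NN d L) := by ring
  rw [h5]
  linarith

end Pool.Agent.L5helper95.BE
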