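import Pool.Agent.L5helper95.BE.Green
import Pool.Agent.L5helper95.BE.Exp

/-! The energy of flat eigenfunctions to second order in the coupling. -/

set_option autoImplicit false
set_option linter.unusedSectionVars false

open scoped BigOperators
open MeasureTheory ProbabilityTheory

namespace Pool.Agent.L5helper95.BE

open Pool.Agent.W788.MFP.Four
open Pool.Agent.W788.MFP.Gm

variable {d : ℕ}

theorem NN_ge (hd : 3 ≤ d) (L : ℕ) [NeZero L] (σ : ℝ) (hσ : 0 < σ) (hL : 1 ≤ σ * L) :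
    1 / σ ^ 3 ≤ NN d L := by
  unfold NN
  have h1 : 1 / σ ≤ L := by
    rw [div_le_iff₀ hσ]
    linarith
  calc 1 / σ ^ 3 = (1 / σ) ^ 3 := by rw [div_pow, one_pow]
    _ ≤ (L : ℝ) ^ 3 := pow_le_pow_left₀ (by positivity) h1 3
    _ ≤ (L : ℝ) ^ d := pow_le_pow_right₀ L_one hd

/-- **upper bound** -/
theorem UP (hd : 3 ≤ d) (ε : ℝ) (hε : 0 < ε) :
    ∃ σ1 : ℝ, 0 < σ1 ∧ ∀ σ : ℝ, 0 < σ → σ ≤ σ1 → ∀ (L : ℕ) [NeZero L], 1 ≤ σ * L →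
      ∀ G : Set (T d L → ℝ), MeasurableSet G → ∀ e η : ℝ, 0 ≤ η →
      (∀ ξ ∈ G, ∃ (Et : ℝ) (ψ : T d L → ℝ), e ≤ Et - 2 * d ∧ (∀ x, 1 ≤ ψ x ∧ ψ x ≤ 1 + η) ∧
        ∀ x, Ad ψ x + σ * ξ x * ψ x = Et * ψ x) →
      e * (Γ (T d L)).real G ≤ (1 + η) ^ 2 * (σ ^ 2 * (green d + ε)) := by
  obtain ⟨L0, hL0⟩ := gT_upper hd (ε / 4) (by positivity)
  refine ⟨min (ε ^ 2 / 4) (1 / (L0 + 1)), by positivity, ?_⟩
  intro σ hσ hσ1 L _ hL G hG e η hη h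
  have hN : 0 < NN d L := NN_pos
  have hσa : σ ≤ ε ^ 2 / 4 := hσ1.trans (min_le_left _ _)
  have hσb : σ ≤ 1 / (L0 + 1) := hσ1.trans (min_le_right _ _)
  have hLL : L0 ≤ L := by
    have h1 : σ * L ≤ 1 / (L0 + 1) * L := by
      have : (0 : ℝ) < L := L_pos
      gcongr
    have h2 : 1 ≤ 1 / ((L0 : ℝ) + 1) * L := hL.trans h1
    rw [one_div, inv_mul_eq_div, le_div_iff₀ (by positivity)] at h2
    have h3 : (L0 : ℝ) ≤ L := by linarith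
    exact_mod_cast h3
  obtain ⟨μ, hμ⟩ : ∃ μ, μ = ε * σ ^ 2 := ⟨_, rfl⟩
  have hμ0 : 0 < μ := by rw [hμ]; positivity
  have h1 := avg_up G hG (e * NN d L) (fun ξ => (1 + η) ^ 2 * (σ ^ 2 * Q μ ξ + μ * NN d L / 4))
    ((((Q_int μ).const_mul _).add (integrable_const _)).const_mul _) (fun ξ => by
      have := Q_nonneg μ hμ0 ξ
      positivity) (fun ξ hξ => by
      obtain ⟨Et, ψ, a1, a2, a3⟩ := h ξ hξ
      exact (mul_le_mul_of_nonneg_right a1 hN.le).trans (upper σ μ η Et hσ hμ0 hη ξ ψ a2 a3))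
  rw [integral_const_mul, integral_add ((Q_int μ).const_mul _) (integrable_const _),
    integral_const_mul, E_Q, integral_const, probReal_univ, one_smul] at h1
  have h2 := hL0 L hLL μ hμ0
  have h3 : 1 / (NN d L * μ) ≤ ε / 4 := by
    have h4 := NN_ge hd L σ hσ hL
    have h5 : ε / σ ≤ NN d L * μ := by
      rw [hμ]
      calc ε / σ = 1 / σ ^ 3 * (ε * σ ^ 2) := by field_simp
        _ ≤ _ := mul_le_mul_of_nonneg_right h4 (by positivity)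
    calc 1 / (NN d L * μ) ≤ 1 / (ε / σ) := one_div_le_one_div_of_le (by positivity) h5
      _ = σ / ε := by rw [one_div_div]
      _ ≤ ε / 4 := by
          rw [div_le_iff₀ hε]
          calc σ ≤ ε ^ 2 / 4 := hσa
            _ = _ := by ring
  have h4 : gT d L μ + μ / (4 * σ ^ 2) ≤ green d + ε := by
    have : μ / (4 * σ ^ 2) = ε / 4 := by
      rw [hμ]
      field_simp
    rw [this]
    linarith
  have h5 : (1 + η) ^ 2 * (σ ^ 2 * (NN d L * gT d L μ) + μ * NN d L / 4) =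
      ((1 + η) ^ 2 * (σ ^ 2 * (gT d L μ + μ / (4 * σ ^ 2)))) * NN d L := by
    field_simp
  rw [h5] at h1
  have h6 : e * (Γ (T d L)).real G * NN d L ≤
      ((1 + η) ^ 2 * (σ ^ 2 * (green d + ε))) * NN d L := by
    calc e * (Γ (T d L)).real G * NN d L = e * NN d L * (Γ (T d L)).real G := by ring
      _ ≤ _ := h1
      _ ≤ _ := by gcongr
  exact le_of_mul_le_mul_right h6 hN

/-- **lower bound** -/
theorem LO (hd : 3 ≤ d) (ε : ℝ) (hε : 0 < ε) :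
    ∃ δ : ℝ, 0 < δ ∧ δ ≤ 2 ∧ ∃ σ1 : ℝ, 0 < σ1 ∧ ∀ σ : ℝ, 0 < σ → σ ≤ σ1 →
      ∀ (L : ℕ) [NeZero L], 1 ≤ σ * L →
      ∀ G : Set (T d L → ℝ), MeasurableSet G → (Γ (T d L)).real Gᶜ ≤ δ → ∀ e : ℝ,
      (∀ ξ ∈ G, ∃ (Et : ℝ) (ψ : T d L → ℝ), Et - 2 * d ≤ e ∧ Et - 2 * d ≤ δ ∧ -2 ≤ Et - 2 * d ∧
        (∀ x, 0 < ψ x) ∧ ∀ x, Ad ψ x + σ * ξ x * ψ x = Et * ψ x) →
      σ ^ 2 * (green d - ε) ≤ e * (Γ (T d L)).real G := by
  obtain ⟨μ, hμ, hg⟩ := gT_lower hd (ε / 6) (by positivity)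
  obtain ⟨M, hM⟩ : ∃ M, M = 1 + 4 * μ⁻¹ := ⟨_, rfl⟩
  have hM0 : 0 < M := by rw [hM]; positivity
  obtain ⟨B, hB⟩ : ∃ B, B = 36 / (ε * μ) := ⟨_, rfl⟩
  have hB0 : 0 < B := by rw [hB]; positivity
  obtain ⟨δ, hδ⟩ : ∃ δ, δ = min 2 (min (ε / 6 * μ ^ 2) (ε * μ / (12 * B))) := ⟨_, rfl⟩
  have hδ0 : 0 < δ := by rw [hδ]; positivity
  have hδ2 : δ ≤ 2 := by rw [hδ]; exact min_le_left _ _
  have hδa : δ ≤ ε / 6 * μ ^ 2 := by
    rw [hδ]; exact (min_le_right _ _).trans (min_le_left _ _)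
  have hδb : δ ≤ ε * μ / (12 * B) := by
    rw [hδ]; exact (min_le_right _ _).trans (min_le_right _ _)
  refine ⟨δ, hδ0, hδ2, min (ε ^ 2 / (36 * M ^ 2)) (ε / (3 * (1 + 3 * (μ⁻¹) ^ 4))),
    by positivity, ?_⟩
  intro σ hσ hσ1 L _ hL G hG hPG e h
  have hN : 0 < NN d L := NN_pos
  have hσa : σ ≤ ε ^ 2 / (36 * M ^ 2) := hσ1.trans (min_le_left _ _)
  have hσb : σ ≤ ε / (3 * (1 + 3 * (μ⁻¹) ^ 4)) := hσ1.trans (min_le_right _ _)
  obtain ⟨a, ha⟩ : ∃ a, a = ε * σ / (6 * M) := ⟨_, rfl⟩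
  have ha0 : 0 < a := by rw [ha]; positivity
  obtain ⟨Y, hY⟩ : ∃ Y : (T d L → ℝ) → ℝ, Y = fun ξ => σ ^ 2 * Q μ ξ -
      σ * M * (a * NN d L / 2 + (2 * a * NN d L)⁻¹ * (∑ x, ξ x) ^ 2) -
      σ ^ 3 / 2 * (∑ x, ξ x ^ 2 + (μ⁻¹) ^ 4 * ∑ x, ξ x ^ 4) -
      δ * σ ^ 2 * (μ⁻¹) ^ 2 * ∑ x, ξ x ^ 2 := ⟨_, rfl⟩
  have i1 : Integrable (fun ξ : T d L → ℝ => σ ^ 2 * Q μ ξ) (Γ (T d L)) := (Q_int μ).const_mul _
  have i2 : Integrable (fun ξ : T d L → ℝ => σ * M * (a * NN d L / 2 +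
      (2 * a * NN d L)⁻¹ * (∑ x, ξ x) ^ 2)) (Γ (T d L)) :=
    ((integrable_const _).add (S_int.const_mul _)).const_mul _
  have i3 : Integrable (fun ξ : T d L → ℝ => σ ^ 3 / 2 * (∑ x, ξ x ^ 2 +
      (μ⁻¹) ^ 4 * ∑ x, ξ x ^ 4)) (Γ (T d L)) :=
    ((sum_pw_int 2).add ((sum_pw_int 4).const_mul _)).const_mul _
  have i4 : Integrable (fun ξ : T d L → ℝ => δ * σ ^ 2 * (μ⁻¹) ^ 2 * ∑ x, ξ x ^ 2)
      (Γ (T d L)) := (sum_pw_int 2).const_mul _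
  have hYi : Integrable Y (Γ (T d L)) := by
    rw [hY]
    exact ((i1.sub i2).sub i3).sub i4
  have hEY : ∫ ξ, Y ξ ∂(Γ (T d L)) = (σ ^ 2 * gT d L μ - σ * M * (a / 2 + (2 * a * NN d L)⁻¹) -
      σ ^ 3 / 2 * (1 + 3 * (μ⁻¹) ^ 4) - δ * σ ^ 2 * (μ⁻¹) ^ 2) * NN d L := by
    rw [hY]
    have e1 : ∫ ξ : T d L → ℝ, σ ^ 2 * Q μ ξ ∂(Γ (T d L)) = σ ^ 2 * (NN d L * gT d L μ) := by
      rw [integral_const_mul, E_Q]
    have e2 : ∫ ξ : T d L → ℝ, σ * M * (a * NN d L / 2 +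
        (2 * a * NN d L)⁻¹ * (∑ x, ξ x) ^ 2) ∂(Γ (T d L)) =
        σ * M * (a * NN d L / 2 + (2 * a * NN d L)⁻¹ * NN d L) := by
      rw [integral_const_mul, integral_add (integrable_const _) (S_int.const_mul _),
        integral_const, probReal_univ, one_smul, integral_const_mul, E_S]
    have e3 : ∫ ξ : T d L → ℝ, σ ^ 3 / 2 * (∑ x, ξ x ^ 2 +
        (μ⁻¹) ^ 4 * ∑ x, ξ x ^ 4) ∂(Γ (T d L)) =
        σ ^ 3 / 2 * (NN d L + (μ⁻¹) ^ 4 * (3 * NN d L)) := by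
      rw [integral_const_mul, integral_add (sum_pw_int 2) ((sum_pw_int 4).const_mul _),
        E_sum_sq, integral_const_mul, E_sum_four]
    have e4 : ∫ ξ : T d L → ℝ, δ * σ ^ 2 * (μ⁻¹) ^ 2 * ∑ x, ξ x ^ 2 ∂(Γ (T d L)) =
        δ * σ ^ 2 * (μ⁻¹) ^ 2 * NN d L := by
      rw [integral_const_mul, E_sum_sq]
    have s1 := integral_sub ((i1.sub i2).sub i3) i4
    have s2 := integral_sub (i1.sub i2) i3
    have s3 := integral_sub i1 i2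
    simp only [Pi.sub_apply] at s1 s2 s3
    rw [s1, s2, s3, e1, e2, e3, e4]
    ring
  have hYle : ∀ ξ : T d L → ℝ, Y ξ ≤ σ ^ 2 * μ⁻¹ * ∑ x, ξ x ^ 2 := by
    intro ξ
    rw [hY]
    have b1 := mul_le_mul_of_nonneg_left (Q_le μ hμ ξ) (by positivity : 0 ≤ σ ^ 2)
    have b2 : 0 ≤ σ * M * (a * NN d L / 2 + (2 * a * NN d L)⁻¹ * (∑ x, ξ x) ^ 2) := by positivity
    have b3 : 0 ≤ ∑ x, ξ x ^ 2 := Finset.sum_nonneg fun x _ => sq_nonneg _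
    have b4 : 0 ≤ ∑ x, ξ x ^ 4 := Finset.sum_nonneg fun x _ => by positivity
    have b5 : 0 ≤ σ ^ 3 / 2 * (∑ x, ξ x ^ 2 + (μ⁻¹) ^ 4 * ∑ x, ξ x ^ 4) := by positivity
    have b6 : 0 ≤ δ * σ ^ 2 * (μ⁻¹) ^ 2 * ∑ x, ξ x ^ 2 := by positivity
    have b7 : σ ^ 2 * (μ⁻¹ * ∑ x, ξ x ^ 2) = σ ^ 2 * μ⁻¹ * ∑ x, ξ x ^ 2 := by ring
    simp only
    linarith
  have hYe : ∀ ξ ∈ G, Y ξ ≤ e * NN d L := by
    intro ξ hξ
    obtain ⟨Et, ψ, a1, a2, a3, a4, a5⟩ := h ξ hξ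
    have b1 := lower σ μ δ Et hσ hμ ξ ψ a4 a5 hδ0.le hδ2 a2 a3
    have b2 : |∑ x, ξ x| ≤ a * NN d L / 2 + (2 * a * NN d L)⁻¹ * (∑ x, ξ x) ^ 2 := by
      have c1 : 0 < a * NN d L := by positivity
      have c2 : 0 ≤ (|∑ x, ξ x| - a * NN d L) ^ 2 / (2 * (a * NN d L)) := by positivity
      have c3 : (|∑ x, ξ x| - a * NN d L) ^ 2 / (2 * (a * NN d L)) =
          a * NN d L / 2 + (2 * a * NN d L)⁻¹ * (|∑ x, ξ x|) ^ 2 - |∑ x, ξ x| := by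
        field_simp
        ring
      rw [sq_abs] at c3
      linarith
    have b3 := mul_le_mul_of_nonneg_left b2 (by positivity : 0 ≤ σ * M)
    have b4 := mul_le_mul_of_nonneg_right a1 hN.le
    rw [← hM] at b1
    rw [hY]
    simp only
    linarith
  have key := avg_lo G hG (e * NN d L) B hB0 Y (σ ^ 2 * μ⁻¹) (by positivity) hYi hYle hYe
  rw [hEY] at key
  have k1 : (σ ^ 2 * gT d L μ - σ * M * (a / 2 + (2 * a * NN d L)⁻¹) -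
      σ ^ 3 / 2 * (1 + 3 * (μ⁻¹) ^ 4) - δ * σ ^ 2 * (μ⁻¹) ^ 2 -
      σ ^ 2 * μ⁻¹ * (B * (Γ (T d L)).real Gᶜ + 3 / B)) * NN d L ≤
      (e * (Γ (T d L)).real G) * NN d L := by
    linarith
  have k2 := le_of_mul_le_mul_right k1 hN
  -- the error terms
  have t1 : σ ^ 2 * (green d - ε / 6) ≤ σ ^ 2 * gT d L μ :=
    mul_le_mul_of_nonneg_left (hg L) (by positivity)
  have t2 : σ * M * (a / 2) = σ ^ 2 * (ε / 12) := by
    rw [ha]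
    field_simp
    ring
  have t3 : σ * M * (2 * a * NN d L)⁻¹ ≤ σ ^ 2 * (ε / 12) := by
    have c1 := NN_ge hd L σ hσ hL
    have c2 : (2 * a * NN d L)⁻¹ ≤ (2 * a * (1 / σ ^ 3))⁻¹ := by
      apply inv_anti₀ (by positivity)
      gcongr
    have c3 : σ * M * (2 * a * (1 / σ ^ 3))⁻¹ = σ ^ 2 * (3 * M ^ 2 / ε * σ) := by
      rw [ha]
      field_simp
      ring
    have c4 : 3 * M ^ 2 / ε * σ ≤ ε / 12 := by
      rw [div_mul_eq_mul_div, div_le_iff₀ hε]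
      rw [le_div_iff₀ (by positivity)] at hσa
      linarith
    calc σ * M * (2 * a * NN d L)⁻¹ ≤ σ * M * (2 * a * (1 / σ ^ 3))⁻¹ :=
          mul_le_mul_of_nonneg_left c2 (by positivity)
      _ = σ ^ 2 * (3 * M ^ 2 / ε * σ) := c3
      _ ≤ _ := mul_le_mul_of_nonneg_left c4 (by positivity)
  have t4 : σ ^ 3 / 2 * (1 + 3 * (μ⁻¹) ^ 4) ≤ σ ^ 2 * (ε / 6) := by
    rw [le_div_iff₀ (by positivity)] at hσb
    have c1 : σ ^ 3 / 2 * (1 + 3 * (μ⁻¹) ^ 4) = σ ^ 2 * (σ * (3 * (1 + 3 * (μ⁻¹) ^ 4)) / 6) := by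
      ring
    rw [c1]
    apply mul_le_mul_of_nonneg_left _ (by positivity)
    linarith
  have t5 : δ * σ ^ 2 * (μ⁻¹) ^ 2 ≤ σ ^ 2 * (ε / 6) := by
    have c1 : δ * σ ^ 2 * (μ⁻¹) ^ 2 ≤ (ε / 6 * μ ^ 2) * σ ^ 2 * (μ⁻¹) ^ 2 := by gcongr
    have c2 : (ε / 6 * μ ^ 2) * σ ^ 2 * (μ⁻¹) ^ 2 = σ ^ 2 * (ε / 6) := by
      field_simp
    linarith
  have t6 : σ ^ 2 * μ⁻¹ * (B * (Γ (T d L)).real Gᶜ + 3 / B) ≤ σ ^ 2 * (ε / 6) := by
    have c1 : B * (Γ (T d L)).real Gᶜ ≤ ε * μ / 12 := by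
      calc B * (Γ (T d L)).real Gᶜ ≤ B * (ε * μ / (12 * B)) :=
            mul_le_mul_of_nonneg_left (hPG.trans hδb) hB0.le
        _ = ε * μ / 12 := by field_simp
    have c2 : 3 / B = ε * μ / 12 := by
      rw [hB]
      field_simp
      norm_num
    have c3 : σ ^ 2 * μ⁻¹ * (ε * μ / 12 + ε * μ / 12) = σ ^ 2 * (ε / 6) := by
      field_simp
      ring
    rw [c2, ← c3]
    apply mul_le_mul_of_nonneg_left _ (by positivity)
    linarith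
  rw [mul_add] at k2
  have t7 : σ ^ 2 * (green d - ε) = σ ^ 2 * (green d - ε / 6) - σ ^ 2 * (ε / 12) -
      σ ^ 2 * (ε / 12) - σ ^ 2 * (ε / 6) - σ ^ 2 * (ε / 6) - σ ^ 2 * (ε / 6) -
      σ ^ 2 * (ε / 6) := by ring
  have t8 : 0 ≤ σ ^ 2 * (ε / 6) := by positivity
  rw [t7]
  linarith

/-- a flat eigenfunction on the torus with energy near `Es` -/
def FlatAt {L : ℕ} (η K Es σ : ℝ) (ξ : T d L → ℝ) : Prop :=
  ∃ (Et : ℝ) (ψ : T d L → ℝ), |Et - Es| ≤ K / (L : ℝ) ^ 2 ∧ (∀ x, 1 ≤ ψ x ∧ ψ x ≤ 1 + η) ∧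
    ∀ x, Ad ψ x + σ * ξ x * ψ x = Et * ψ x

/-- **The effective band edge to second order.** -/
theorem edge (hd : 3 ≤ d) (ε : ℝ) (hε : 0 < ε) (hε1 : ε ≤ 1) :
    ∃ δ : ℝ, 0 < δ ∧ ∃ σ1 : ℝ, 0 < σ1 ∧ ∀ σ : ℝ, 0 < σ → σ ≤ σ1 →
      ∀ (L : ℕ) [NeZero L], 1 ≤ σ * L →
      ∀ G : Set (T d L → ℝ), MeasurableSet G → 1 - δ ≤ (Γ (T d L)).real G → ∀ η K Es : ℝ,
      0 ≤ η → (1 + η) ^ 2 ≤ 1 + ε → K / (L : ℝ) ^ 2 ≤ ε * σ ^ 2 → |Es - 2 * d| ≤ 1 →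
      (∀ ξ ∈ G, FlatAt η K Es σ ξ) →
      |Es - 2 * d - green d * σ ^ 2| ≤ (6 + 3 * green d) * ε * σ ^ 2 := by
  obtain ⟨σa, hσa, hU⟩ := UP hd ε hε
  obtain ⟨δb, hδb, hδb2, σb, hσb, hLo⟩ := LO hd ε hε
  have hg := green_nonneg hd
  obtain ⟨g, hgg⟩ : ∃ g, g = green d := ⟨_, rfl⟩
  rw [← hgg] at hU hLo hg ⊢
  refine ⟨min δb (ε / 4), by positivity, min (min σa σb) (min 1 (δb / (g + (6 + 3 * g)))),
    by positivity, ?_⟩
  intro σ hσ hσ1 L _ hL G hG hPG η K Es hη hη1 hK hEs h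
  have hσ1a : σ ≤ σa := hσ1.trans ((min_le_left _ _).trans (min_le_left _ _))
  have hσ1b : σ ≤ σb := hσ1.trans ((min_le_left _ _).trans (min_le_right _ _))
  have hσ1c : σ ≤ 1 := hσ1.trans ((min_le_right _ _).trans (min_le_left _ _))
  have hσ1d : σ ≤ δb / (g + (6 + 3 * g)) := hσ1.trans ((min_le_right _ _).trans (min_le_right _ _))
  have hPc : (Γ (T d L)).real Gᶜ ≤ min δb (ε / 4) := by
    rw [probReal_compl_eq_one_sub hG]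
    linarith
  have hP1 : (Γ (T d L)).real G ≤ 1 := measureReal_le_one
  have hPe : 1 - ε / 4 ≤ (Γ (T d L)).real G := by
    have := min_le_right δb (ε / 4)
    linarith
  have hP0 : 0 < (Γ (T d L)).real G := by linarith
  obtain ⟨P, hP⟩ : ∃ P, P = (Γ (T d L)).real G := ⟨_, rfl⟩
  obtain ⟨k, hk⟩ : ∃ k, k = K / (L : ℝ) ^ 2 := ⟨_, rfl⟩
  rw [← hk] at hK
  have hs2 : 0 < σ ^ 2 := by positivity
  -- upper bound
  have hup : Es - 2 * d - k ≤ (g + ε * (4 + 3 * g)) * σ ^ 2 := by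
    have h1 := hU σ hσ hσ1a L hL G hG (Es - 2 * d - k) η hη (fun ξ hξ => by
      obtain ⟨Et, ψ, a1, a2, a3⟩ := h ξ hξ
      refine ⟨Et, ψ, ?_, a2, a3⟩
      rw [← hk, abs_le] at a1
      linarith [a1.1])
    rw [← hP] at h1 hPe hP0 hP1
    have h2 : (Es - 2 * d - k) * P ≤ (1 + ε) * (σ ^ 2 * (g + ε)) := by
      refine h1.trans ?_
      apply mul_le_mul_of_nonneg_right hη1 (by positivity)
    rcases le_total (Es - 2 * d - k) 0 with h0 | h0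
    · refine h0.trans (by positivity)
    · have h3 : (Es - 2 * d - k) * (1 - ε / 4) ≤ (1 + ε) * (σ ^ 2 * (g + ε)) :=
        (mul_le_mul_of_nonneg_left hPe h0).trans h2
      have h4 : (1 + ε) * (g + ε) ≤ (1 - ε / 4) * (g + ε * (4 + 3 * g)) := by
        have c1 : (1 - ε / 4) * (g + ε * (4 + 3 * g)) - (1 + ε) * (g + ε) =
            ε * (7 / 4 * g + 3 - ε * (2 + 3 / 4 * g)) := by ring
        have c2 : ε * (2 + 3 / 4 * g) ≤ 1 * (2 + 3 / 4 * g) := by gcongr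
        have c3 : 0 ≤ 7 / 4 * g + 3 - ε * (2 + 3 / 4 * g) := by linarith
        have c4 : 0 ≤ ε * (7 / 4 * g + 3 - ε * (2 + 3 / 4 * g)) := mul_nonneg hε.le c3
        linarith
      have h5 : (Es - 2 * d - k) * (1 - ε / 4) ≤
          ((g + ε * (4 + 3 * g)) * σ ^ 2) * (1 - ε / 4) := by
        calc _ ≤ _ := h3
          _ = (1 + ε) * (g + ε) * σ ^ 2 := by ring
          _ ≤ (1 - ε / 4) * (g + ε * (4 + 3 * g)) * σ ^ 2 := by gcongr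
          _ = _ := by ring
      exact le_of_mul_le_mul_right h5 (by linarith)
  -- lower bound
  have hlo : (g - 2 * ε) * σ ^ 2 ≤ Es - 2 * d + k := by
    have h1 := hLo σ hσ hσ1b L hL G hG (hPc.trans (min_le_left _ _)) (Es - 2 * d + k)
      (fun ξ hξ => by
        obtain ⟨Et, ψ, a1, a2, a3⟩ := h ξ hξ
        rw [← hk, abs_le] at a1
        rw [abs_le] at hEs
        refine ⟨Et, ψ, by linarith [a1.2], ?_, ?_, fun x => by linarith [(a2 x).1], a3⟩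
        · have c1 : Et - 2 * d ≤ (g + (6 + 3 * g)) * σ ^ 2 := by
            have c2 : (g + ε * (4 + 3 * g)) * σ ^ 2 + 2 * (ε * σ ^ 2) ≤
                (g + (6 + 3 * g)) * σ ^ 2 := by
              have c3 : g + ε * (4 + 3 * g) + 2 * ε ≤ g + (6 + 3 * g) := by
                have c4 : ε * (6 + 3 * g) ≤ 1 * (6 + 3 * g) := by gcongr
                linarith
              calc _ = (g + ε * (4 + 3 * g) + 2 * ε) * σ ^ 2 := by ring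
                _ ≤ _ := mul_le_mul_of_nonneg_right c3 hs2.le
            linarith [a1.2]
          refine c1.trans ?_
          rw [le_div_iff₀ (by positivity)] at hσ1d
          calc (g + (6 + 3 * g)) * σ ^ 2 = (g + (6 + 3 * g)) * σ * σ := by ring
            _ ≤ (g + (6 + 3 * g)) * σ * 1 := by gcongr
            _ ≤ δb := by linarith
        · have c1 : ε * σ ^ 2 ≤ 1 * 1 ^ 2 := by gcongr
          linarith [a1.1, hEs.1])
    rw [← hP] at h1 hPe hP0 hP1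
    rcases le_total (Es - 2 * d + k) 0 with h0 | h0
    · have h2 : (Es - 2 * d + k) * P ≤ (Es - 2 * d + k) * (1 - ε / 4) :=
        mul_le_mul_of_nonpos_left hPe h0
      have h3 : (Es - 2 * d + k) * (1 - ε / 4) ≤ (Es - 2 * d + k) * (1 / 2) :=
        mul_le_mul_of_nonpos_left (by linarith) h0
      have h4 : 0 ≤ g * σ ^ 2 := by positivity
      have h5 : σ ^ 2 * (g - ε) = g * σ ^ 2 - ε * σ ^ 2 := by ring
      have h6 : (g - 2 * ε) * σ ^ 2 = g * σ ^ 2 - 2 * (ε * σ ^ 2) := by ring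
      linarith
    · have h2 : (Es - 2 * d + k) * P ≤ (Es - 2 * d + k) * 1 := mul_le_mul_of_nonneg_left hP1 h0
      have h5 : σ ^ 2 * (g - ε) = g * σ ^ 2 - ε * σ ^ 2 := by ring
      have h6 : (g - 2 * ε) * σ ^ 2 = g * σ ^ 2 - 2 * (ε * σ ^ 2) := by ring
      have h7 : 0 ≤ ε * σ ^ 2 := by positivity
      linarith
  have e1 : (6 + 3 * g) * ε * σ ^ 2 = 6 * (ε * σ ^ 2) + 3 * (ε * g * σ ^ 2) := by ring
  have e2 : (g + ε * (4 + 3 * g)) * σ ^ 2 =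
      g * σ ^ 2 + 4 * (ε * σ ^ 2) + 3 * (ε * g * σ ^ 2) := by ring
  have e3 : (g - 2 * ε) * σ ^ 2 = g * σ ^ 2 - 2 * (ε * σ ^ 2) := by ring
  have e4 : 0 ≤ ε * g * σ ^ 2 := by positivity
  have e5 : 0 ≤ ε * σ ^ 2 := by positivity
  rw [abs_le, e1]
  constructor
  · linarith
  · linarith

end Pool.Agent.L5helper95.BE
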