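import Pool.Agent.Results.MP_1906c1_mp.ThreeDimEdge
import Pool.Agent.L5helper95.BE.Edge

/-! The starting results `ScaleAtEdge` and `ThreeDimEdge` in one form. The proof of `base4` is that of
the starting result `ScaleAtEdge` with a part of its conclusion replaced. -/

set_option autoImplicit false
set_option linter.unusedSectionVars false

open scoped BigOperators
open MeasureTheory ProbabilityTheory

namespace Pool.Agent.L5helper95.BE

open Pool.Agent.Results.MP_1906c1_mp.ScaleAtEdge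

/-- the starting result `ScaleAtEdge`, with the flat top eigenfunction on tori -/
theorem base4 (d : ℕ) (hd : 4 ≤ d) (η : ℝ) (hη : 0 < η) (hη' : η ≤ 1) :
    ∃ k K : ℝ, 0 < k ∧ 0 < K ∧ ∀ σ : ℝ, 0 < σ → σ ≤ k → ∃ Es : ℝ, |Es - 2 * d| ≤ 1 ∧
      -- (1) on `ℤ^d`: `ℓ²`-eigenfunctions with `|E| ≥ Es - κ` are spread out
      (∃ G : Set ((Fin d → ℤ) → ℝ), MeasurableSet G ∧
        1 - Real.exp (-(k * sc d σ)) ≤
          (Measure.infinitePi fun _ : Fin d → ℤ => gaussianReal 0 1).real G ∧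
        ∀ ξ ∈ G, ∀ κ : ℝ, Real.exp (-(k * sc d σ)) ≤ κ → κ ≤ 1 → ∀ E : ℝ, Es - κ ≤ |E| →
          SpreadOut σ ξ E (K * κ ^ ((d : ℝ) / 2)) (Real.exp (k * sc d σ))) ∧
      (∀ (L : ℕ) [NeZero L], (L : ℝ) ≤ Real.exp (k * sc d σ) →
        ∃ G : Set (T d L → ℝ), MeasurableSet G ∧
          1 - Real.exp (-(k * sc d σ)) ≤ (Measure.pi fun _ : T d L => gaussianReal 0 1).real G ∧
          ∀ ξ ∈ G, ∃ (Et : ℝ) (ψ : T d L → ℝ), |Et - Es| ≤ K / (L : ℝ) ^ 2 ∧
            (∀ x, 1 ≤ ψ x ∧ ψ x ≤ 1 + η) ∧ ∀ x, HT σ ξ ψ x = Et * ψ x) ∧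
      -- (3) exponential localization for `|E| ≥ Es + κ`
      ∀ κ : ℝ, Real.exp (-(k * sc d σ)) ≤ κ → κ ≤ 1 →
        ∀ᵐ ξ ∂(Measure.infinitePi fun _ : Fin d → ℤ => gaussianReal 0 1),
          Localized (H σ ξ) {E | Es + κ ≤ |E|} (k * Real.sqrt κ / Real.log (2 / (κ * σ))) := by
  obtain ⟨c1, hc1, HT1⟩ := Pool.Agent.H4R2.AE.TorG.main_torusG d hd η hη hη'
  obtain ⟨k0, s0, K, hk0, hs0, hK, HF⟩ := Pool.Agent.H4R2.LO.Fin.fin d (by omega) 1 c1
    one_pos hc1
  obtain ⟨C1, hC1, HL⟩ := Pool.Agent.H695R3.AN.latt d hd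
  -- the scale
  have hsc : ∀ σ : ℝ, sc d σ = 1 / Pool.Agent.H4R2.AE.scaleG d σ := by
    intro σ
    unfold sc Pool.Agent.H4R2.AE.scaleG
    split_ifs <;> rfl
  set k' : ℝ := min (k0 / 10) (min c1 (min s0 1)) with hk'
  have hk'pos : 0 < k' := by positivity
  have hk'k : k' ≤ k0 / 10 := min_le_left _ _
  have hk'k0 : k' ≤ k0 := by linarith
  set M : ℝ := (1 + K) ^ ((d : ℝ) / 2) with hM
  have hM0 : 0 < M := Real.rpow_pos_of_pos (by linarith) _
  set K' : ℝ := K + C1 * M with hK'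
  have hC1M : 0 < C1 * M := by positivity
  refine ⟨k', K', hk'pos, by linarith, ?_⟩
  intro σ hσ hσk
  have hσc1 : σ ≤ c1 := hσk.trans ((min_le_right _ _).trans (min_le_left _ _))
  have hσs0 : σ ≤ s0 := hσk.trans ((min_le_right _ _).trans ((min_le_right _ _).trans
    (min_le_left _ _)))
  have hσ1 : σ ≤ 1 := hσk.trans ((min_le_right _ _).trans ((min_le_right _ _).trans
    (min_le_right _ _)))
  set s := Pool.Agent.H4R2.AE.scaleG d σ with hs
  have hspos : 0 < s := Pool.Agent.H4R2.AE.TorG.scaleG_pos d σ hσ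
  have hsσ : s ≤ σ := by
    rw [hs]
    unfold Pool.Agent.H4R2.AE.scaleG
    split_ifs
    · exact le_rfl
    · nlinarith
  have hsk : s ≤ k0 / 10 := hsσ.trans (hσk.trans hk'k)
  have hexp1 : k' * sc d σ ≤ k0 / s := by
    rw [hsc σ, ← hs, mul_one_div]
    exact div_le_div_of_nonneg_right hk'k0 hspos.le
  have hexp2 : k' * sc d σ ≤ k0 / (2 * s) := by
    rw [hsc σ, ← hs, mul_one_div, div_le_div_iff₀ hspos (by positivity)]
    nlinarith
  have hX : 10 ≤ Real.exp (k0 / (2 * s)) := by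
    have h5 : 5 ≤ k0 / (2 * s) := by
      rw [le_div_iff₀ (by positivity)]
      linarith
    have h6 := Pool.Agent.H4R2.LO.Fin.exp_ge_sq (k0 / (2 * s)) (by linarith)
    nlinarith
  obtain ⟨Es, hEs, H1, H2⟩ := HF (gaussianReal 0 1) Pool.Agent.H4R2.LO.Lw.reg_gauss s σ η 1 hspos
    (hsσ.trans hσs0) hsσ hσ1 hη' (by
      intro L _ hL
      obtain ⟨E, hE, G, hG, hP, hflat⟩ := HT1 σ hσ hσc1 L hL
      exact ⟨E, hE, G, hG, hP, fun V hV => (hflat V hV).2⟩)
  refine ⟨2 * d - Es, by rw [sub_sub_cancel_left, abs_neg]; exact hEs, ?_, ?_, ?_⟩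
  · -- the lattice
    obtain ⟨G, hG, hP, hG2⟩ := HL (gaussianReal 0 1) k0 s σ K Es hK.le hX (by
      intro L _ hL
      obtain ⟨G, hG, hP, hflat⟩ := H1 L hL
      refine ⟨G, hG, hP, fun V hV => ?_⟩
      obtain ⟨E0, ψ, h1, h2, h3⟩ := hflat V hV
      exact ⟨E0, ψ, h1, fun x => ⟨(h2 x).1, by linarith [(h2 x).2]⟩, h3⟩)
    have hm : Measurable (fun (ξ : (Fin d → ℤ) → ℝ) y => -ξ y) := by fun_prop
    refine ⟨G ∩ (fun ξ y => -ξ y) ⁻¹' G, hG.inter (hm hG), ?_, ?_⟩
    · have hP2 : 1 - Real.exp (-k0 / s) ≤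
          (Measure.infinitePi fun _ : Fin d → ℤ => gaussianReal 0 1).real
            ((fun ξ y => -ξ y) ⁻¹' G) := by
        have h1 : (Measure.infinitePi fun _ : Fin d → ℤ => gaussianReal 0 1).real
            ((fun ξ y => -ξ y) ⁻¹' G) =
            (Measure.infinitePi fun _ : Fin d → ℤ => gaussianReal 0 1).real G := by
          conv_rhs => rw [← law_neg d]
          rw [map_measureReal_apply hm hG]
        rw [h1]
        exact hP
      have h2 := measureReal_union_add_inter (μ := Measure.infinitePi fun _ : Fin d → ℤ =>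
        gaussianReal 0 1) (s := G) (t := (fun ξ y => -ξ y) ⁻¹' G) (hm hG)
      have h3 : (Measure.infinitePi fun _ : Fin d → ℤ => gaussianReal 0 1).real
          (G ∪ (fun ξ y => -ξ y) ⁻¹' G) ≤ 1 := measureReal_le_one
      have h4 : 2 * Real.exp (-k0 / s) ≤ Real.exp (-(k' * sc d σ)) := by
        have h5 : Real.exp (-k0 / s) = Real.exp (-(k0 / (2 * s))) * Real.exp (-(k0 / (2 * s))) := by
          rw [← Real.exp_add]
          congr 1
          field_simp
          ring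
        have h6 : Real.exp (-(k0 / (2 * s))) ≤ Real.exp (-(k' * sc d σ)) :=
          Real.exp_le_exp.2 (by linarith)
        have h7 : Real.exp (-(k0 / (2 * s))) ≤ 1 / 2 := by
          rw [Real.exp_neg, ← one_div]
          exact one_div_le_one_div_of_le (by norm_num) (by linarith)
        have h8 := Real.exp_pos (-(k0 / (2 * s)))
        rw [h5]
        nlinarith
      linarith
    · intro ξ hξ κ hκ hκ1 E hE u hu hgen x hx
      have hκ0 : 0 < κ := lt_of_lt_of_le (Real.exp_pos _) hκ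
      have hκ2 : Real.exp (-k0 / (2 * s)) ≤ κ := by
        refine le_trans (Real.exp_le_exp.2 ?_) hκ
        rw [neg_div]
        linarith
      have hx2 : ‖x‖ ≤ Real.exp (k0 / (2 * s)) := hx.trans (Real.exp_le_exp.2 hexp2)
      have hsum0 : 0 ≤ ∑' y, ‖u y‖ ^ 2 := tsum_nonneg fun y => by positivity
      have hKK : C1 * M * κ ^ ((d : ℝ) / 2) * ∑' y, ‖u y‖ ^ 2 ≤
          K' * κ ^ ((d : ℝ) / 2) * ∑' y, ‖u y‖ ^ 2 := by
        apply mul_le_mul_of_nonneg_right _ hsum0
        apply mul_le_mul_of_nonneg_right _ (Real.rpow_nonneg hκ0.le _)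
        linarith
      have hg : Pool.Agent.H4R2.LO.IsGen 1 (fun x => σ * ξ x) E u := by
        intro y
        rw [← H_eq]
        exact hgen y
      refine le_trans ?_ hKK
      rcases le_or_gt 0 E with h0 | h0
      · rw [abs_of_nonneg h0] at hE
        have hg2 := Pool.Agent.H4R2.LO.Main.neg_gen 1 (fun x => σ * ξ x) E u hg
        have e1 : (fun x => -(σ * ξ x)) = fun x => σ * (-ξ x) := by
          funext y; ring
        rw [e1] at hg2
        exact hG2 _ hξ.2 κ hκ2 hκ1 (-E) (by linarith) u hg2 hu x hx2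
      · rw [abs_of_neg h0] at hE
        have hg2 := Pool.Agent.H4R2.LO.Main.stag 1 (fun x => σ * ξ x) E u hg
        have hn : ∀ y, ‖Pool.Agent.H4R2.LO.Main.sgn y * u y‖ = ‖u y‖ := fun y => by
          rw [norm_mul, Pool.Agent.H4R2.LO.Main.sgn_norm, one_mul]
        have h9 := hG2 _ hξ.1 κ hκ2 hκ1 E (by linarith) _ hg2 (by
          unfold Pool.Agent.H4R2.LO.L2f
          simp only [hn]
          exact hu) x hx2
        simp only [hn] at h9
        exact h9
  · intro L _ hL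
    obtain ⟨G, hG, hP, hflat⟩ := H1 L (hL.trans (Real.exp_le_exp.2 hexp1))
    have hm : Measurable (fun (ξ : T d L → ℝ) y => -ξ y) := by fun_prop
    refine ⟨(fun ξ y => -ξ y) ⁻¹' G, hm hG, ?_, fun ξ hξ => ?_⟩
    · have h1 : (Measure.pi fun _ : T d L => gaussianReal 0 1).real ((fun ξ y => -ξ y) ⁻¹' G) =
          (Measure.pi fun _ : T d L => gaussianReal 0 1).real G := by
        conv_rhs => rw [← lawT_neg d L]
        rw [map_measureReal_apply hm hG]
      rw [h1]
      refine le_trans ?_ hP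
      have h3 : Real.exp (-k0 / s) ≤ Real.exp (-(k' * sc d σ)) := by
        apply Real.exp_le_exp.2
        rw [neg_div]
        linarith
      linarith
    · obtain ⟨E0, ψ, h1, h2, h3⟩ := hflat _ hξ
      refine ⟨2 * d - E0, ψ, ?_, h2, fun x => ?_⟩
      · have e1 : 2 * (d : ℝ) - E0 - (2 * d - Es) = -(E0 - Es) := by ring
        rw [e1, abs_neg]
        refine h1.trans ?_
        apply div_le_div_of_nonneg_right _ (by positivity)
        linarith
      · rw [HT_eq, h3 x]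
        ring
  · intro κ hκ hκ1
    have hκ' : Real.exp (-k0 / s) ≤ κ := by
      refine le_trans (Real.exp_le_exp.2 ?_) hκ
      rw [neg_div]
      linarith
    have hκ0 : 0 < κ := lt_of_lt_of_le (Real.exp_pos _) hκ
    have h1 := H2 κ hκ' hκ1
    set m : ℝ := k' * Real.sqrt κ / Real.log (2 / (κ * σ)) with hm
    have hbase : 2 ≤ 2 / (κ * σ) := by
      rw [le_div_iff₀ (by positivity)]
      have : κ * σ ≤ 1 := by nlinarith
      linarith
    have hX : 0 < Real.log (2 / (κ * σ)) := Real.log_pos (by linarith)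
    have hmpos : 0 < m := by positivity
    have hmm : m ≤ k0 * Real.sqrt κ / Real.log (2 / (κ * σ)) := by
      rw [hm]
      gcongr
    have hA : ∀ᵐ ξ ∂(Measure.infinitePi fun _ : Fin d → ℤ => gaussianReal 0 1),
        Pool.Agent.H4R2.LO.Main.Dec d (-1) (fun x => σ * ξ x) (Set.Iic (Es - 2 * d - κ)) m := by
      filter_upwards [h1] with ω hω
      exact Pool.Agent.H4R2.LO.Main.dec_mono _ _ _ _ _ _ hω le_rfl hmm
    have hB : ∀ᵐ ξ ∂(Measure.infinitePi fun _ : Fin d → ℤ => gaussianReal 0 1),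
        Pool.Agent.H4R2.LO.Main.Dec d (-1) (fun x => σ * -ξ x) (Set.Iic (Es - 2 * d - κ)) m := by
      have h3 := hA
      rw [← law_neg d] at h3
      have hm2 : Measurable (fun (ω : (Fin d → ℤ) → ℝ) x => -ω x) := by fun_prop
      exact ae_of_ae_map hm2.aemeasurable h3
    filter_upwards [hA, hB] with ξ hξ hξ'
    apply localized_of σ ξ _ m hmpos
    -- negative energies
    have e1 := Pool.Agent.H4R2.LO.Main.dec_stag _ _ _ m hξ
    -- positive energies
    have e2 := Pool.Agent.H4R2.LO.Main.dec_neg _ _ _ m hξ'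
    simp only [neg_neg, mul_neg] at e1 e2
    refine Pool.Agent.H4R2.LO.Main.dec_mono _ _ _ _ _ _
      (Pool.Agent.H4R2.LO.Main.dec_union _ _ _ _ m e1 e2) ?_ le_rfl
    intro E hE
    have hE' : 2 * d - Es + κ ≤ |E| := hE
    rcases abs_cases E with ⟨h, _⟩ | ⟨h, _⟩
    · right
      show -E ≤ Es - 2 * d - κ
      linarith
    · left
      show E ≤ Es - 2 * d - κ
      linarith

end Pool.Agent.L5helper95.BE
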