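import Pool.Agent.L5helper95.BE.Base4

/-! The starting results `ScaleAtEdge` and `ThreeDimEdge` in one form, for windows of size at least
`ε σ²`. -/

set_option autoImplicit false
set_option linter.unusedSectionVars false

open scoped BigOperators
open MeasureTheory ProbabilityTheory

namespace Pool.Agent.L5helper95.BE

open Pool.Agent.Results.MP_1906c1_mp.ScaleAtEdge
open Pool.Agent.W788.MFP.Gm (Γ)

/-- flat eigenfunctions on tori whose side is of order `1/σ` -/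
def FlatFam (d : ℕ) (η K : ℝ) (Es : ℝ → ℝ) : Prop :=
  ∀ A δ : ℝ, 1 ≤ A → 0 < δ → ∃ σ0 : ℝ, 0 < σ0 ∧ ∀ σ : ℝ, 0 < σ → σ ≤ σ0 →
    ∀ (L : ℕ) [NeZero L], A ≤ σ * L → σ * L ≤ 2 * A →
      ∃ G : Set (T d L → ℝ), MeasurableSet G ∧ 1 - δ ≤ (Γ (T d L)).real G ∧
        ∀ ξ ∈ G, FlatAt η K (Es σ) σ ξ

/-- spread out states below `Es`, localization above -/
def Trans (d : ℕ) (K : ℝ) (Es : ℝ → ℝ) : Prop :=
  ∀ ε : ℝ, 0 < ε → ε ≤ 1 → ∃ k : ℝ, 0 < k ∧ ∀ σ : ℝ, 0 < σ → σ ≤ k →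
    (∃ G : Set ((Fin d → ℤ) → ℝ), MeasurableSet G ∧ 1 - Real.exp (-(k / σ)) ≤
        (Measure.infinitePi fun _ : Fin d → ℤ => gaussianReal 0 1).real G ∧
      ∀ ξ ∈ G, ∀ κ : ℝ, ε * σ ^ 2 ≤ κ → κ ≤ 1 → ∀ E : ℝ, Es σ - κ ≤ |E| →
        SpreadOut σ ξ E (K * κ ^ ((d : ℝ) / 2)) (Real.exp (k / σ))) ∧
    ∀ κ : ℝ, ε * σ ^ 2 ≤ κ → κ ≤ 1 →
      ∀ᵐ ξ ∂(Measure.infinitePi fun _ : Fin d → ℤ => gaussianReal 0 1),
        Localized (H σ ξ) {E | Es σ + κ ≤ |E|} (k * Real.sqrt κ / Real.log (1 / σ))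

theorem exp_neg_le1 (x : ℝ) (hx : 0 < x) : Real.exp (-x) ≤ 1 / x := by
  rw [Real.exp_neg, ← one_div]
  apply one_div_le_one_div_of_le hx
  linarith [Real.add_one_le_exp x]

theorem exp_neg_le3 (x : ℝ) (hx : 0 < x) : Real.exp (-x) ≤ 6 / x ^ 3 := by
  have h := Real.pow_div_factorial_le_exp x hx.le 3
  have h6 : ((Nat.factorial 3 : ℕ) : ℝ) = 6 := by norm_num [Nat.factorial]
  rw [h6] at h
  rw [Real.exp_neg, ← one_div, div_le_div_iff₀ (Real.exp_pos x) (by positivity), one_mul]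
  linarith

theorem log_le (σ : ℝ) (hσ : 0 < σ) : Real.log (1 / σ) ≤ 2 / Real.sqrt σ := by
  have hs : 0 < Real.sqrt σ := Real.sqrt_pos.2 hσ
  have h1 : 1 / σ = (1 / Real.sqrt σ) ^ 2 := by
    rw [div_pow, one_pow, Real.sq_sqrt hσ.le]
  rw [h1, Real.log_pow]
  have h2 := Real.log_le_sub_one_of_pos (by positivity : 0 < 1 / Real.sqrt σ)
  push_cast
  have h3 : 2 / Real.sqrt σ = 2 * (1 / Real.sqrt σ) := by ring
  rw [h3]
  linarith

theorem sigma_log_le (σ : ℝ) (hσ : 0 < σ) : σ * Real.log (1 / σ) ≤ 2 * Real.sqrt σ := by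
  have hs : 0 < Real.sqrt σ := Real.sqrt_pos.2 hσ
  calc σ * Real.log (1 / σ) ≤ σ * (2 / Real.sqrt σ) := mul_le_mul_of_nonneg_left (log_le σ hσ) hσ.le
    _ = 2 * Real.sqrt σ := by
      have h : Real.sqrt σ * Real.sqrt σ = σ := Real.mul_self_sqrt hσ.le
      field_simp
      linarith

theorem localized_mono {d : ℕ} (A : ((Fin d → ℤ) → ℂ) → (Fin d → ℤ) → ℂ) (S S' : Set ℝ)
    (m m' : ℝ) (h : Localized A S m) (hS : S' ⊆ S) (hm : m' ≤ m) : Localized A S' m' := by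
  obtain ⟨h1, N, hN, h2⟩ := h
  refine ⟨fun E hE ψ hψ heq => ?_, N, hN, fun g μ hg hμ => ?_⟩
  · obtain ⟨C, hC⟩ := h1 E (hS hE) ψ hψ heq
    refine ⟨|C|, fun x => (hC x).trans ?_⟩
    calc C * Real.exp (-(m * ‖x‖)) ≤ |C| * Real.exp (-(m * ‖x‖)) :=
          mul_le_mul_of_nonneg_right (le_abs_self C) (Real.exp_pos _).le
      _ ≤ |C| * Real.exp (-(m' * ‖x‖)) := by
          apply mul_le_mul_of_nonneg_left _ (abs_nonneg C)
          apply Real.exp_le_exp.2
          have := mul_le_mul_of_nonneg_right hm (norm_nonneg x)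
          linarith
  · exact measure_mono_null (Set.sdiff_subset_sdiff_left hS) (h2 g μ hg hμ)

theorem spreadOut_mono {d : ℕ} (σ : ℝ) (ξ : (Fin d → ℤ) → ℝ) (E B B' ρ ρ' : ℝ)
    (h : SpreadOut σ ξ E B ρ) (hB : B ≤ B') (hρ : ρ' ≤ ρ) : SpreadOut σ ξ E B' ρ' := by
  intro u hu heq x hx
  refine (h u hu heq x (hx.trans hρ)).trans ?_
  exact mul_le_mul_of_nonneg_right hB (tsum_nonneg fun y => by positivity)

theorem rate_le (k ε σ κ : ℝ) (hk : 0 < k) (hε : 0 < ε) (hσ : 0 < σ) (hσ1 : σ < 1)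
    (hσε : 2 * σ ≤ ε) (hκ : ε * σ ^ 2 ≤ κ) (hκ1 : κ ≤ 1) :
    k / 4 * Real.sqrt κ / Real.log (1 / σ) ≤ k * Real.sqrt κ / Real.log (2 / (κ * σ)) := by
  have hκ0 : 0 < κ := lt_of_lt_of_le (by positivity) hκ
  have hl : 0 < Real.log (1 / σ) := by
    apply Real.log_pos
    rw [lt_div_iff₀ hσ]
    linarith
  have h1 : 2 / (κ * σ) ≤ (1 / σ) ^ 4 := by
    rw [div_pow, one_pow, div_le_div_iff₀ (by positivity) (by positivity)]
    calc 2 * σ ^ 4 = (2 * σ) * (σ ^ 2 * σ) := by ring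
      _ ≤ ε * (σ ^ 2 * σ) := by gcongr
      _ = ε * σ ^ 2 * σ := by ring
      _ ≤ κ * σ := by gcongr
      _ = 1 * (κ * σ) := by ring
  have h2 : 1 < 2 / (κ * σ) := by
    rw [lt_div_iff₀ (by positivity)]
    have : κ * σ ≤ 1 * 1 := by gcongr
    linarith
  have h3 : Real.log (2 / (κ * σ)) ≤ 4 * Real.log (1 / σ) := by
    have h4 := Real.log_le_log (by positivity) h1
    rw [Real.log_pow] at h4
    exact_mod_cast h4
  have h5 : 0 < Real.log (2 / (κ * σ)) := Real.log_pos h2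
  rw [div_le_div_iff₀ hl h5]
  have h6 : 0 ≤ k / 4 * Real.sqrt κ := by positivity
  calc k / 4 * Real.sqrt κ * Real.log (2 / (κ * σ)) ≤
      k / 4 * Real.sqrt κ * (4 * Real.log (1 / σ)) := mul_le_mul_of_nonneg_left h3 h6
    _ = k * Real.sqrt κ * Real.log (1 / σ) := by ring

theorem sc_ge (d : ℕ) (σ : ℝ) (hσ : 0 < σ) (hσ1 : σ ≤ 1) : 1 / σ ≤ sc d σ := by
  unfold sc
  split_ifs
  · exact le_rfl
  · apply one_div_le_one_div_of_le (by positivity)
    nlinarith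

/-- dimension at least four -/
theorem fam4 (d : ℕ) (hd : 4 ≤ d) (η : ℝ) (hη : 0 < η) (hη' : η ≤ 1) :
    ∃ K : ℝ, 0 < K ∧ ∃ Es : ℝ → ℝ, (∃ k : ℝ, 0 < k ∧ ∀ σ : ℝ, 0 < σ → σ ≤ k →
      |Es σ - 2 * d| ≤ 1) ∧ FlatFam d η K Es ∧ Trans d K Es := by
  obtain ⟨k, K, hk, hK, h⟩ := base4 d hd η hη hη'
  choose! Es hEs using h
  refine ⟨K, hK, Es, ⟨k, hk, fun σ h1 h2 => (hEs σ h1 h2).1⟩, ?_, ?_⟩
  · intro A δ hA hδ
    refine ⟨min (min k 1) (min (k ^ 2 / (4 * A)) (k * δ)), by positivity, ?_⟩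
    intro σ hσ hσ0 L _ hL1 hL2
    have a1 : σ ≤ k := hσ0.trans ((min_le_left _ _).trans (min_le_left _ _))
    have a2 : σ ≤ 1 := hσ0.trans ((min_le_left _ _).trans (min_le_right _ _))
    have a3 : σ ≤ k ^ 2 / (4 * A) := hσ0.trans ((min_le_right _ _).trans (min_le_left _ _))
    have a4 : σ ≤ k * δ := hσ0.trans ((min_le_right _ _).trans (min_le_right _ _))
    have a5 := sc_ge d σ hσ a2
    have a6 : k / σ ≤ k * sc d σ := by
      calc k / σ = k * (1 / σ) := by ring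
        _ ≤ _ := mul_le_mul_of_nonneg_left a5 hk.le
    obtain ⟨-, -, h2, -⟩ := hEs σ hσ a1
    have hLe : (L : ℝ) ≤ Real.exp (k * sc d σ) := by
      refine le_trans ?_ (Real.exp_le_exp.2 a6)
      have b1 := Real.pow_div_factorial_le_exp (k / σ) (by positivity) 2
      have b2 : ((Nat.factorial 2 : ℕ) : ℝ) = 2 := by norm_num [Nat.factorial]
      rw [b2] at b1
      refine le_trans ?_ b1
      have b3 : (L : ℝ) ≤ 2 * A / σ := by
        rw [le_div_iff₀ hσ]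
        linarith
      refine b3.trans ?_
      rw [le_div_iff₀ (by positivity)] at a3
      rw [div_pow, div_div, div_le_div_iff₀ hσ (by positivity)]
      calc 2 * A * (σ ^ 2 * 2) = (σ * (4 * A)) * σ := by ring
        _ ≤ k ^ 2 * σ := by gcongr
    obtain ⟨G, hG, hP, hflat⟩ := h2 L hLe
    refine ⟨G, hG, ?_, hflat⟩
    refine le_trans ?_ hP
    have b1 : Real.exp (-(k * sc d σ)) ≤ δ := by
      calc Real.exp (-(k * sc d σ)) ≤ Real.exp (-(k / σ)) := Real.exp_le_exp.2 (by linarith)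
        _ ≤ 1 / (k / σ) := exp_neg_le1 _ (by positivity)
        _ = σ / k := by rw [one_div_div]
        _ ≤ δ := by
            rw [div_le_iff₀ hk]
            linarith
    linarith
  · intro ε hε hε1
    refine ⟨min (min (k / 4) (1 / 2)) (min (ε / 2) (ε * k ^ 3 / 6)), by positivity, ?_⟩
    intro σ hσ hσ0
    obtain ⟨k', hk'⟩ : ∃ k', k' = min (min (k / 4) (1 / 2)) (min (ε / 2) (ε * k ^ 3 / 6)) :=
      ⟨_, rfl⟩
    have hk'0 : 0 < k' := by rw [hk']; positivity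
    rw [← hk'] at hσ0 ⊢
    have a1' : k' ≤ k / 4 := by
      rw [hk']; exact (min_le_left _ _).trans (min_le_left _ _)
    have a1 : σ ≤ k := by linarith
    have a2 : σ ≤ 1 / 2 := by
      refine hσ0.trans ?_
      rw [hk']; exact (min_le_left _ _).trans (min_le_right _ _)
    have a3 : σ ≤ ε / 2 := by
      refine hσ0.trans ?_
      rw [hk']; exact (min_le_right _ _).trans (min_le_left _ _)
    have a4 : σ ≤ ε * k ^ 3 / 6 := by
      refine hσ0.trans ?_
      rw [hk']; exact (min_le_right _ _).trans (min_le_right _ _)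
    have a5 := sc_ge d σ hσ (by linarith)
    have a6 : k / σ ≤ k * sc d σ := by
      calc k / σ = k * (1 / σ) := by ring
        _ ≤ _ := mul_le_mul_of_nonneg_left a5 hk.le
    have a7 : k' / σ ≤ k / σ := by
      apply div_le_div_of_nonneg_right _ hσ.le
      linarith
    have a8 : Real.exp (-(k * sc d σ)) ≤ ε * σ ^ 2 := by
      calc Real.exp (-(k * sc d σ)) ≤ Real.exp (-(k / σ)) := Real.exp_le_exp.2 (by linarith)
        _ ≤ 6 / (k / σ) ^ 3 := exp_neg_le3 _ (by positivity)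
        _ = 6 * σ ^ 3 / k ^ 3 := by rw [div_pow]; field_simp
        _ ≤ ε * σ ^ 2 := by
            rw [div_le_iff₀ (by positivity)]
            calc 6 * σ ^ 3 = 6 * σ * σ ^ 2 := by ring
              _ ≤ 6 * (ε * k ^ 3 / 6) * σ ^ 2 := by gcongr
              _ = _ := by ring
    obtain ⟨-, h1, -, h3⟩ := hEs σ hσ a1
    constructor
    · obtain ⟨G, hG, hP, hs⟩ := h1
      refine ⟨G, hG, ?_, ?_⟩
      · refine le_trans ?_ hP
        have : Real.exp (-(k * sc d σ)) ≤ Real.exp (-(k' / σ)) := Real.exp_le_exp.2 (by linarith)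
        linarith
      · intro ξ hξ κ hκ hκ1 E hE
        exact spreadOut_mono σ ξ E _ _ _ _ (hs ξ hξ κ (a8.trans hκ) hκ1 E hE) le_rfl
          (Real.exp_le_exp.2 (by linarith))
    · intro κ hκ hκ1
      filter_upwards [h3 κ (a8.trans hκ) hκ1] with ξ hξ
      apply localized_mono _ _ _ _ _ hξ subset_rfl
      refine le_trans ?_ (rate_le k ε σ κ hk hε hσ (by linarith) (by linarith) hκ hκ1)
      have hl : 0 < Real.log (1 / σ) := by
        apply Real.log_pos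
        rw [lt_div_iff₀ hσ]
        linarith
      gcongr

/-- dimension three -/
theorem fam3 (η : ℝ) (hη : 0 < η) (hη' : η ≤ 1) :
    ∃ K : ℝ, 0 < K ∧ ∃ Es : ℝ → ℝ, (∃ k : ℝ, 0 < k ∧ ∀ σ : ℝ, 0 < σ → σ ≤ k →
      |Es σ - 2 * (3 : ℕ)| ≤ 1) ∧ FlatFam 3 η K Es ∧ Trans 3 K Es := by
  obtain ⟨k, K, hk, hK, h⟩ := Pool.Agent.Results.MP_1906c1_mp.ThreeDimEdge.result η hη hη'
  choose! Es hEs using h
  refine ⟨K, hK, Es, ⟨k, hk, fun σ h1 h2 => ?_⟩, ?_, ?_⟩
  · have := (hEs σ h1 h2).1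
    norm_num at this ⊢
    exact this
  · intro A δ hA hδ
    refine ⟨min (min k 1) (min (k ^ 2 / (16 * A ^ 2)) (k * δ / (2 * A))), by positivity, ?_⟩
    intro σ hσ hσ0 L _ hL1 hL2
    have a1 : σ ≤ k := hσ0.trans ((min_le_left _ _).trans (min_le_left _ _))
    have a3 : σ ≤ k ^ 2 / (16 * A ^ 2) := hσ0.trans ((min_le_right _ _).trans (min_le_left _ _))
    have a4 : σ ≤ k * δ / (2 * A) := hσ0.trans ((min_le_right _ _).trans (min_le_right _ _))
    have hL0 : (0 : ℝ) < L := L_pos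
    have a5 : Real.sqrt σ ≤ k / (4 * A) := by
      apply Real.sqrt_le_iff.2 ⟨by positivity, ?_⟩
      rw [div_pow]
      refine a3.trans (le_of_eq ?_)
      ring
    obtain ⟨-, -, h2, -⟩ := hEs σ hσ a1
    have hLe : (L : ℝ) * (σ ^ 2 * Real.log (1 / σ)) ≤ k := by
      have b1 := sigma_log_le σ hσ
      have b2 : 0 < Real.sqrt σ := Real.sqrt_pos.2 hσ
      rw [le_div_iff₀ (by positivity)] at a5
      calc (L : ℝ) * (σ ^ 2 * Real.log (1 / σ)) = (σ * L) * (σ * Real.log (1 / σ)) := by ring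
        _ ≤ (σ * L) * (2 * Real.sqrt σ) := mul_le_mul_of_nonneg_left b1 (by positivity)
        _ ≤ (2 * A) * (2 * Real.sqrt σ) := by gcongr
        _ = Real.sqrt σ * (4 * A) := by ring
        _ ≤ k := a5
    obtain ⟨G, hG, hP, hflat⟩ := h2 L hLe
    refine ⟨G, hG, ?_, ?_⟩
    · refine le_trans ?_ hP
      have b1 : Real.exp (-(k / (L * σ ^ 2))) ≤ δ := by
        calc Real.exp (-(k / (L * σ ^ 2))) ≤ 1 / (k / (L * σ ^ 2)) :=
              exp_neg_le1 _ (by positivity)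
          _ = (σ * L) * σ / k := by rw [one_div_div]; ring
          _ ≤ (2 * A) * σ / k := by gcongr
          _ ≤ δ := by
              rw [div_le_iff₀ hk]
              rw [le_div_iff₀ (by positivity)] at a4
              linarith
      linarith
    · intro ξ hξ
      obtain ⟨⟨Et, ψ, c1, c2, c3, -⟩, -⟩ := hflat ξ hξ
      exact ⟨Et, ψ, c1, c2, c3⟩
  · intro ε hε hε1
    have hsε : 0 < Real.sqrt ε := Real.sqrt_pos.2 hε
    have hsε1 : Real.sqrt ε ≤ 1 := Real.sqrt_le_iff.2 ⟨zero_le_one, by linarith⟩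
    refine ⟨min (min (k * Real.sqrt ε / 4) (1 / 2)) (min (ε / 2) (ε / (4 * K))),
      by positivity, ?_⟩
    intro σ hσ hσ0
    obtain ⟨k', hk'⟩ : ∃ k', k' = min (min (k * Real.sqrt ε / 4) (1 / 2))
      (min (ε / 2) (ε / (4 * K))) := ⟨_, rfl⟩
    have hk'0 : 0 < k' := by rw [hk']; positivity
    rw [← hk'] at hσ0 ⊢
    have a1' : k' ≤ k * Real.sqrt ε / 4 := by
      rw [hk']; exact (min_le_left _ _).trans (min_le_left _ _)
    have a1'' : k * Real.sqrt ε ≤ k := mul_le_of_le_one_right hk.le hsε1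
    have a1 : σ ≤ k := by linarith
    have a2 : σ ≤ 1 / 2 := by
      refine hσ0.trans ?_
      rw [hk']; exact (min_le_left _ _).trans (min_le_right _ _)
    have a3 : σ ≤ ε / 2 := by
      refine hσ0.trans ?_
      rw [hk']; exact (min_le_right _ _).trans (min_le_left _ _)
    have a4 : σ ≤ ε / (4 * K) := by
      refine hσ0.trans ?_
      rw [hk']; exact (min_le_right _ _).trans (min_le_right _ _)
    have a8 : K * (σ ^ 2 * Real.log (1 / σ)) ^ 2 ≤ ε * σ ^ 2 := by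
      have b1 := sigma_log_le σ hσ
      have b2 : 0 ≤ σ * Real.log (1 / σ) := by
        have : 0 ≤ Real.log (1 / σ) := by
          apply Real.log_nonneg
          rw [le_div_iff₀ hσ]
          linarith
        positivity
      rw [le_div_iff₀ (by positivity)] at a4
      calc K * (σ ^ 2 * Real.log (1 / σ)) ^ 2 = K * σ ^ 2 * (σ * Real.log (1 / σ)) ^ 2 := by ring
        _ ≤ K * σ ^ 2 * (2 * Real.sqrt σ) ^ 2 := by gcongr
        _ = (σ * (4 * K)) * σ ^ 2 := by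
            rw [mul_pow, Real.sq_sqrt hσ.le]
            ring
        _ ≤ ε * σ ^ 2 := by gcongr
    obtain ⟨-, h1, -, h3⟩ := hEs σ hσ a1
    have hsq : Real.sqrt (ε * σ ^ 2) = Real.sqrt ε * σ := by
      rw [Real.sqrt_mul hε.le, Real.sqrt_sq hσ.le]
    have e1 : k * Real.sqrt (ε * σ ^ 2) / σ ^ 2 = k * Real.sqrt ε / σ := by
      rw [hsq]
      field_simp
    have a7 : k' / σ ≤ k * Real.sqrt ε / σ := by
      apply div_le_div_of_nonneg_right _ hσ.le
      have : 0 < k * Real.sqrt ε := by positivity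
      linarith
    have hεσ1 : ε * σ ^ 2 ≤ 1 := by
      calc ε * σ ^ 2 ≤ 1 * 1 ^ 2 := by gcongr; linarith
        _ = 1 := by norm_num
    constructor
    · obtain ⟨G, hG, hP, hs⟩ := h1 (ε * σ ^ 2) a8 hεσ1
      rw [e1] at hP hs
      refine ⟨G, hG, ?_, ?_⟩
      · refine le_trans ?_ hP
        have : Real.exp (-(k * Real.sqrt ε / σ)) ≤ Real.exp (-(k' / σ)) :=
          Real.exp_le_exp.2 (by linarith)
        linarith
      · intro ξ hξ κ hκ hκ1 E hE
        refine spreadOut_mono σ ξ E _ _ _ _ (hs ξ hξ κ hκ hκ1 E hE) (le_of_eq ?_)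
          (Real.exp_le_exp.2 a7)
        norm_num
    · intro κ hκ hκ1
      filter_upwards [h3 κ (a8.trans hκ) hκ1] with ξ hξ
      apply localized_mono _ _ _ _ _ hξ subset_rfl
      refine le_trans ?_ (rate_le k ε σ κ hk hε hσ (by linarith) (by linarith) hκ hκ1)
      have hl : 0 < Real.log (1 / σ) := by
        apply Real.log_pos
        rw [lt_div_iff₀ hσ]
        linarith
      have : k' ≤ k / 4 := by linarith
      gcongr

end Pool.Agent.L5helper95.BE
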