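import Pool.Agent.L5helper95.BE.Fam

/-! The position of the effective band edge. -/

set_option autoImplicit false
set_option linter.unusedSectionVars false

open scoped BigOperators
open MeasureTheory ProbabilityTheory

namespace Pool.Agent.L5helper95.BE

open Pool.Agent.Results.MP_1906c1_mp.ScaleAtEdge
open Pool.Agent.W788.MFP.Gm (Γ)

theorem fam (d : ℕ) (hd : 3 ≤ d) (η : ℝ) (hη : 0 < η) (hη' : η ≤ 1) :
    ∃ K : ℝ, 0 < K ∧ ∃ Es : ℝ → ℝ, (∃ k : ℝ, 0 < k ∧ ∀ σ : ℝ, 0 < σ → σ ≤ k →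
      |Es σ - 2 * d| ≤ 1) ∧ FlatFam d η K Es ∧ Trans d K Es := by
  rcases Nat.lt_or_ge 3 d with h | h
  · exact fam4 d h η hη hη'
  · have : d = 3 := by omega
    subst this
    exact fam3 η hη hη'

theorem Dir_comm {d L : ℕ} [NeZero L] (f g : T d L → ℝ) : Dir f g = Dir g f := by
  unfold Dir
  exact Finset.sum_congr rfl fun x _ => Finset.sum_congr rfl fun i _ => mul_comm _ _

/-- two positive eigenfunctions have the same energy -/
theorem energy_unique {d L : ℕ} [NeZero L] (σ E1 E2 : ℝ) (ξ ψ1 ψ2 : T d L → ℝ)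
    (p1 : ∀ x, 0 < ψ1 x) (p2 : ∀ x, 0 < ψ2 x)
    (h1 : ∀ x, Ad ψ1 x + σ * ξ x * ψ1 x = E1 * ψ1 x)
    (h2 : ∀ x, Ad ψ2 x + σ * ξ x * ψ2 x = E2 * ψ2 x) : E1 = E2 := by
  have e1 := Dir_eq ψ1 ψ2
  have e2 := Dir_eq ψ2 ψ1
  have e3 := Dir_comm ψ1 ψ2
  have e4 : ∑ x, ψ2 x * ψ1 x = ∑ x, ψ1 x * ψ2 x := Finset.sum_congr rfl fun x _ => mul_comm _ _
  have e5 : ∑ x, ψ1 x * Ad ψ2 x = ∑ x, (E2 * (ψ1 x * ψ2 x) - σ * ξ x * (ψ1 x * ψ2 x)) := by
    refine Finset.sum_congr rfl fun x _ => ?_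
    linear_combination ψ1 x * h2 x
  have e6 : ∑ x, ψ2 x * Ad ψ1 x = ∑ x, (E1 * (ψ1 x * ψ2 x) - σ * ξ x * (ψ1 x * ψ2 x)) := by
    refine Finset.sum_congr rfl fun x _ => ?_
    linear_combination ψ2 x * h1 x
  rw [Finset.sum_sub_distrib, ← Finset.mul_sum] at e5 e6
  have e7 : 0 < ∑ x, ψ1 x * ψ2 x :=
    Finset.sum_pos (fun x _ => mul_pos (p1 x) (p2 x)) Finset.univ_nonempty
  have e8 : E1 * ∑ x, ψ1 x * ψ2 x = E2 * ∑ x, ψ1 x * ψ2 x := by
    rw [e4] at e2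
    linarith
  exact mul_right_cancel₀ e7.ne' e8

/-- **The effective band edge is `2d + green d σ² + o(σ²)`.** -/
theorem asym (d : ℕ) (hd : 3 ≤ d) (K1 : ℝ) (hK1 : 0 < K1) (Es1 : ℝ → ℝ)
    (h1 : FlatFam d 1 K1 Es1) (ε : ℝ) (hε : 0 < ε) (hε1 : ε ≤ 1) :
    ∃ σ0 : ℝ, 0 < σ0 ∧ ∀ σ : ℝ, 0 < σ → σ ≤ σ0 →
      |Es1 σ - 2 * d - green d * σ ^ 2| ≤ (8 + 3 * green d) * ε * σ ^ 2 := by
  obtain ⟨K, hK, Es, ⟨k, hk, hEs⟩, hF, -⟩ := fam d hd (ε / 3) (by positivity) (by linarith)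
  obtain ⟨δ, hδ, σ1, hσ1, hedge⟩ := edge hd ε hε hε1
  have hg := green_nonneg hd
  obtain ⟨A, hA⟩ : ∃ A, A = 1 + (K + K1) / ε := ⟨_, rfl⟩
  have hA1 : 1 ≤ A := by
    rw [hA]
    have : 0 < (K + K1) / ε := by positivity
    linarith
  obtain ⟨σa, hσa, ha⟩ := hF A (min δ (1 / 3)) hA1 (by positivity)
  obtain ⟨σb, hσb, hb⟩ := h1 A (1 / 3) hA1 (by norm_num)
  refine ⟨min (min (min σa σb) (min σ1 k)) 1, by positivity, ?_⟩
  intro σ hσ hσ0
  have b1 : σ ≤ σa := hσ0.trans ((min_le_left _ _).trans ((min_le_left _ _).trans (min_le_left _ _)))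
  have b2 : σ ≤ σb := hσ0.trans ((min_le_left _ _).trans ((min_le_left _ _).trans (min_le_right _ _)))
  have b3 : σ ≤ σ1 := hσ0.trans ((min_le_left _ _).trans ((min_le_right _ _).trans (min_le_left _ _)))
  have b4 : σ ≤ k := hσ0.trans ((min_le_left _ _).trans ((min_le_right _ _).trans (min_le_right _ _)))
  have b5 : σ ≤ 1 := hσ0.trans (min_le_right _ _)
  -- the side of the torus
  obtain ⟨L, hL⟩ : ∃ L : ℕ, L = ⌈A / σ⌉₊ := ⟨_, rfl⟩
  have hAσ : 0 < A / σ := by positivity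
  have hLne : L ≠ 0 := by
    rw [hL]
    exact (Nat.ceil_pos.2 hAσ).ne'
  have : NeZero L := ⟨hLne⟩
  have hLa : A ≤ σ * L := by
    have : A / σ ≤ L := by
      rw [hL]
      exact Nat.le_ceil _
    rw [div_le_iff₀ hσ] at this
    linarith
  have hLb : σ * L ≤ 2 * A := by
    have h3 : (L : ℝ) < A / σ + 1 := by
      rw [hL]
      exact Nat.ceil_lt_add_one hAσ.le
    have h4 : σ * L ≤ σ * (A / σ + 1) := mul_le_mul_of_nonneg_left h3.le hσ.le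
    have h5 : σ * (A / σ + 1) = A + σ := by field_simp
    linarith
  obtain ⟨Ga, hGa, hPa, hfa⟩ := ha σ hσ b1 L hLa hLb
  obtain ⟨Gb, hGb, hPb, hfb⟩ := hb σ hσ b2 L hLa hLb
  have hL0 : (0 : ℝ) < L := L_pos
  -- `(K + K1) / L² ≤ ε σ²`
  have hKL : (K + K1) / (L : ℝ) ^ 2 ≤ ε * σ ^ 2 := by
    rw [div_le_iff₀ (by positivity)]
    have c1 : K + K1 ≤ ε * A := by
      rw [hA]
      have : ε * (1 + (K + K1) / ε) = ε + (K + K1) := by field_simp
      linarith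
    have c2 : A ≤ A ^ 2 := by nlinarith
    have c3 : A ^ 2 ≤ (σ * L) ^ 2 := pow_le_pow_left₀ (by linarith) hLa 2
    calc K + K1 ≤ ε * A := c1
      _ ≤ ε * (σ * L) ^ 2 := mul_le_mul_of_nonneg_left (c2.trans c3) hε.le
      _ = ε * σ ^ 2 * (L : ℝ) ^ 2 := by ring
  have hKL1 : K / (L : ℝ) ^ 2 ≤ ε * σ ^ 2 := by
    refine le_trans ?_ hKL
    apply div_le_div_of_nonneg_right _ (by positivity)
    linarith
  have h2 := hedge σ hσ b3 L (by linarith) Ga hGa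
    (by have := min_le_left δ (1 / 3); linarith) (ε / 3) K (Es σ) (by positivity)
    (by nlinarith) hKL1 (hEs σ hσ b4) hfa
  -- comparison
  have h3 : |Es1 σ - Es σ| ≤ ε * σ ^ 2 := by
    obtain ⟨ξ, hξa, hξb⟩ : (Ga ∩ Gb).Nonempty := by
      by_contra hcon
      rw [Set.not_nonempty_iff_eq_empty] at hcon
      have c1 := measureReal_union_add_inter (μ := Γ (T d L)) (s := Ga) (t := Gb) hGb
      have c2 : (Γ (T d L)).real (Ga ∪ Gb) ≤ 1 := measureReal_le_one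
      rw [hcon, measureReal_empty, add_zero] at c1
      have c3 := min_le_right δ (1 / 3)
      linarith
    obtain ⟨Ea, ψa, a1, a2, a3⟩ := hfa ξ hξa
    obtain ⟨Eb, ψb, c1, c2, c3⟩ := hfb ξ hξb
    have hE := energy_unique σ Ea Eb ξ ψa ψb (fun x => by linarith [(a2 x).1])
      (fun x => by linarith [(c2 x).1]) a3 c3
    subst hE
    have c4 : Es1 σ - Es σ = (Ea - Es σ) - (Ea - Es1 σ) := by ring
    rw [c4]
    refine (abs_sub _ _).trans ?_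
    refine (add_le_add a1 c1).trans ?_
    rw [← add_div]
    exact hKL
  have c5 : Es1 σ - 2 * d - green d * σ ^ 2 =
      (Es1 σ - Es σ) + (Es σ - 2 * d - green d * σ ^ 2) := by ring
  rw [c5]
  refine (abs_add_le _ _).trans ?_
  have c6 : 0 ≤ ε * σ ^ 2 := by positivity
  have c7 : (8 + 3 * green d) * ε * σ ^ 2 = 2 * (ε * σ ^ 2) +
    (6 + 3 * green d) * ε * σ ^ 2 := by ring
  rw [c7]
  linarith

/-- **Localization above, spread out states below `2d + green d σ²`.** -/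
theorem final (d : ℕ) (hd : 3 ≤ d) :
    ∃ K : ℝ, 0 < K ∧ ∀ ε : ℝ, 0 < ε → ε ≤ 1 / 2 → ∃ k : ℝ, 0 < k ∧ ∀ σ : ℝ, 0 < σ → σ ≤ k →
      (∀ κ : ℝ, ε * σ ^ 2 ≤ κ → κ ≤ 1 / 2 →
        ∀ᵐ ξ ∂(Measure.infinitePi fun _ : Fin d → ℤ => gaussianReal 0 1),
          Localized (H σ ξ) {E | 2 * d + green d * σ ^ 2 + κ ≤ |E|}
            (k * Real.sqrt κ / Real.log (1 / σ))) ∧
      ∃ G : Set ((Fin d → ℤ) → ℝ), MeasurableSet G ∧
        1 - Real.exp (-(k / σ)) ≤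
          (Measure.infinitePi fun _ : Fin d → ℤ => gaussianReal 0 1).real G ∧
        ∀ ξ ∈ G, ∀ κ : ℝ, ε * σ ^ 2 ≤ κ → κ ≤ 1 / 2 →
          ∀ E : ℝ, 2 * d + green d * σ ^ 2 - κ ≤ |E| →
            SpreadOut σ ξ E (K * κ ^ ((d : ℝ) / 2)) (Real.exp (k / σ)) := by
  obtain ⟨K1, hK1, Es, -, hF, hT⟩ := fam d hd 1 one_pos le_rfl
  have hg := green_nonneg hd
  refine ⟨K1 * 2 ^ ((d : ℝ) / 2), by positivity, fun ε hε hε1 => ?_⟩
  obtain ⟨ε', hε'⟩ : ∃ ε', ε' = ε / (2 * (8 + 3 * green d)) := ⟨_, rfl⟩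
  have hε'0 : 0 < ε' := by rw [hε']; positivity
  have hε'1 : ε' ≤ 1 := by
    rw [hε', div_le_one (by positivity)]
    linarith
  have e1 : (8 + 3 * green d) * ε' = ε / 2 := by
    rw [hε']
    field_simp
  obtain ⟨σ0, hσ0, hasym⟩ := asym d hd K1 hK1 Es hF ε' hε'0 hε'1
  obtain ⟨k, hk, hk2⟩ := hT (ε / 2) (by positivity) (by linarith)
  obtain ⟨k', hk'⟩ : ∃ k', k' = min (k / 2) (min σ0 (1 / 2)) := ⟨_, rfl⟩
  have hk'0 : 0 < k' := by rw [hk']; positivity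
  have hk'k : k' ≤ k / 2 := by rw [hk']; exact min_le_left _ _
  have hk'σ : k' ≤ σ0 := by rw [hk']; exact (min_le_right _ _).trans (min_le_left _ _)
  have hk'1 : k' ≤ 1 / 2 := by rw [hk']; exact (min_le_right _ _).trans (min_le_right _ _)
  refine ⟨k', hk'0, fun σ hσ hσk => ?_⟩
  have hE := hasym σ hσ (hσk.trans hk'σ)
  rw [e1, abs_le] at hE
  obtain ⟨⟨G, hG, hP, hs⟩, hloc⟩ := hk2 σ hσ (by linarith)
  have hexp : k' / σ ≤ k / σ := by
    apply div_le_div_of_nonneg_right _ hσ.le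
    linarith
  have hl : 0 < Real.log (1 / σ) := by
    apply Real.log_pos
    rw [lt_div_iff₀ hσ]
    linarith
  constructor
  · intro κ hκ hκ1
    have hκ0 : 0 < κ := lt_of_lt_of_le (by positivity) hκ
    filter_upwards [hloc (κ / 2) (by linarith) (by linarith)] with ξ hξ
    apply localized_mono _ _ _ _ _ hξ
    · intro E hE2
      have hE3 : 2 * d + green d * σ ^ 2 + κ ≤ |E| := hE2
      show Es σ + κ / 2 ≤ |E|
      linarith [hE.2]
    · apply div_le_div_of_nonneg_right _ hl.le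
      have c1 : Real.sqrt κ ≤ 2 * Real.sqrt (κ / 2) := by
        apply Real.sqrt_le_iff.2 ⟨by positivity, ?_⟩
        rw [mul_pow, Real.sq_sqrt (by positivity)]
        linarith
      calc k' * Real.sqrt κ ≤ k / 2 * (2 * Real.sqrt (κ / 2)) := by gcongr
        _ = k * Real.sqrt (κ / 2) := by ring
  · refine ⟨G, hG, ?_, ?_⟩
    · refine le_trans ?_ hP
      have : Real.exp (-(k / σ)) ≤ Real.exp (-(k' / σ)) := Real.exp_le_exp.2 (by linarith)
      linarith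
    · intro ξ hξ κ hκ hκ1 E hE2
      have hκ0 : 0 < κ := lt_of_lt_of_le (by positivity) hκ
      refine spreadOut_mono σ ξ E _ _ _ _ (hs ξ hξ (2 * κ) (by linarith) (by linarith) E
        (by linarith [hE.1])) (le_of_eq ?_) (Real.exp_le_exp.2 hexp)
      rw [Real.mul_rpow (by norm_num) hκ0.le]
      ring

end Pool.Agent.L5helper95.BE
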