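import Pool.Agent.L5helper95.BE.Walk

/-! The Green function of the lattice at the band edge. -/

set_option autoImplicit false
set_option linter.unusedSectionVars false

open scoped BigOperators
open Filter Topology

namespace Pool.Agent.L5helper95.BE

open Pool.Agent.W788.MFP.Four

/-- `∑_n (number of closed n-step walks) / (2d)^(n+1)`, the value `⟨δ_0, (2d - Δ)⁻¹ δ_0⟩` of the
Green function of `ℤ^d` at the band edge -/
noncomputable def green (d : ℕ) : ℝ := ∑' n : ℕ, (walks d n : ℝ) / (2 * d) ^ (n + 1)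

variable {d : ℕ}

theorem term_nonneg (μ : ℝ) (hμ : 0 ≤ μ) (n : ℕ) : 0 ≤ (walks d n : ℝ) / (2 * d + μ) ^ (n + 1) := by
  positivity

theorem gT_crude (L : ℕ) [NeZero L] (hd : 3 ≤ d) (μ : ℝ) (hμ : 0 < μ) :
    gT d L μ ≤ 1 / (NN d L * μ) + (1 + CE d) := by
  have h := gT_le (L := L) hd μ 1 hμ one_pos
  have hN : 0 < NN d L := NN_pos
  have h1 : gT d L 1 ≤ 1 := by
    unfold gT
    rw [inv_mul_le_iff₀ hN, mul_one, ← card_T]
    calc ∑ k : T d L, (ep k + 1)⁻¹ ≤ ∑ _k : T d L, (1 : ℝ) := by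
          refine Finset.sum_le_sum fun k _ => ?_
          apply inv_le_one_of_one_le₀
          linarith [ep_nonneg k]
      _ = _ := by simp
  rw [Real.one_rpow, one_mul] at h
  linarith

theorem partial_bd (hd : 3 ≤ d) (μ : ℝ) (hμ : 0 < μ) (m : ℕ) :
    ∑ n ∈ Finset.range (2 * m), (walks d n : ℝ) / (2 * d + μ) ^ (n + 1) ≤ 2 + CE d := by
  obtain ⟨L, hL⟩ := exists_nat_ge (1 / μ + 1)
  have hL1 : (1 : ℝ) ≤ L := by
    have : 0 < 1 / μ := by positivity
    linarith
  have hL0 : L ≠ 0 := by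
    rintro rfl
    norm_num at hL1
  have : NeZero L := ⟨hL0⟩
  refine (gT_ge (L := L) μ hμ m).trans ((gT_crude L hd μ hμ).trans ?_)
  have hN : 1 / μ ≤ NN d L := by
    unfold NN
    calc 1 / μ ≤ L := by linarith
      _ = (L : ℝ) ^ 1 := (pow_one _).symm
      _ ≤ (L : ℝ) ^ d := pow_le_pow_right₀ hL1 (by omega)
  have hNp : 0 < NN d L := NN_pos
  have h1 : 1 / (NN d L * μ) ≤ 1 := by
    rw [div_le_one (by positivity)]
    rw [div_le_iff₀ hμ] at hN
    exact hN
  linarith

theorem cont_term (hd : 3 ≤ d) (m : ℕ) :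
    Tendsto (fun μ : ℝ => ∑ n ∈ Finset.range m, (walks d n : ℝ) / (2 * d + μ) ^ (n + 1))
      (𝓝[>] 0) (𝓝 (∑ n ∈ Finset.range m, (walks d n : ℝ) / (2 * d) ^ (n + 1))) := by
  have hd0 : (0 : ℝ) < d := by exact_mod_cast (by omega : 0 < d)
  have h : ContinuousAt (fun μ : ℝ => ∑ n ∈ Finset.range m,
      (walks d n : ℝ) / (2 * d + μ) ^ (n + 1)) 0 := by
    refine tendsto_finsetSum _ fun n _ => ?_
    refine ContinuousAt.div continuousAt_const (by fun_prop) ?_
    simp only [add_zero]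
    positivity
  have h2 := h.tendsto
  simp only [add_zero] at h2
  exact h2.mono_left nhdsWithin_le_nhds

theorem summ (hd : 3 ≤ d) : Summable fun n : ℕ => (walks d n : ℝ) / (2 * d) ^ (n + 1) := by
  apply summable_of_sum_range_le (c := 2 + CE d)
  · intro n
    positivity
  · intro m
    calc ∑ n ∈ Finset.range m, (walks d n : ℝ) / (2 * d) ^ (n + 1) ≤
        ∑ n ∈ Finset.range (2 * m), (walks d n : ℝ) / (2 * d) ^ (n + 1) := by
          apply Finset.sum_le_sum_of_subset_of_nonneg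
          · intro x hx
            rw [Finset.mem_range] at *
            omega
          · intro n _ _
            positivity
      _ ≤ 2 + CE d := by
          apply le_of_tendsto (cont_term hd (2 * m))
          filter_upwards [self_mem_nhdsWithin] with μ hμ
          exact partial_bd hd μ hμ m

theorem partial_le (hd : 3 ≤ d) (ν : ℝ) (hν : 0 ≤ ν) (m : ℕ) :
    ∑ n ∈ Finset.range m, (walks d n : ℝ) / (2 * d + ν) ^ (n + 1) ≤ green d := by
  have hd0 : (0 : ℝ) < d := by exact_mod_cast (by omega : 0 < d)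
  refine le_trans ?_ ((summ hd).sum_le_tsum (Finset.range m) fun n _ => by positivity)
  refine Finset.sum_le_sum fun n _ => ?_
  apply div_le_div_of_nonneg_left (Nat.cast_nonneg _) (by positivity)
  apply pow_le_pow_left₀ (by positivity)
  linarith

/-- upper bound for the torus Green function near the band edge -/
theorem gT_upper (hd : 3 ≤ d) (ε : ℝ) (hε : 0 < ε) : ∃ L0 : ℕ, ∀ (L : ℕ) [NeZero L], L0 ≤ L →
    ∀ μ : ℝ, 0 < μ → gT d L μ ≤ green d + ε + 1 / (NN d L * μ) := by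
  have hCE : 0 < CE d := CE_pos
  have hd0 : (0 : ℝ) < d := by exact_mod_cast (by omega : 0 < d)
  obtain ⟨ν, hν⟩ : ∃ ν : ℝ, ν = (ε / (2 * CE d)) ^ 4 := ⟨_, rfl⟩
  have hν0 : 0 < ν := by rw [hν]; positivity
  have hν1 : ν ^ (1 / 4 : ℝ) * CE d = ε / 2 := by
    rw [hν, ← Real.rpow_natCast, ← Real.rpow_mul (by positivity)]
    have : ((4 : ℕ) : ℝ) * (1 / 4) = 1 := by norm_num
    rw [this, Real.rpow_one]
    field_simp
  have hlim : Tendsto (fun L : ℕ => (2 * (d : ℝ) / (2 * d + ν)) ^ L * ν⁻¹) atTop (𝓝 (0 * ν⁻¹)) := by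
    apply Tendsto.mul_const
    apply tendsto_pow_atTop_nhds_zero_of_lt_one (by positivity)
    rw [div_lt_one (by positivity)]
    linarith
  rw [zero_mul] at hlim
  obtain ⟨L0, hL0⟩ := eventually_atTop.1 (hlim.eventually (gt_mem_nhds (half_pos hε)))
  refine ⟨L0, fun L _ hL μ hμ => ?_⟩
  have h1 := gT_le (L := L) hd μ ν hμ hν0
  have h2 := gT_le_walks (d := d) (L := L) ν hν0 L le_rfl
  have h3 := partial_le hd ν hν0.le L
  have h4 := hL0 L hL
  linarith

/-- lower bound for the torus Green function near the band edge -/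
theorem gT_lower (hd : 3 ≤ d) (ε : ℝ) (hε : 0 < ε) : ∃ μ : ℝ, 0 < μ ∧ ∀ (L : ℕ) [NeZero L],
    green d - ε ≤ gT d L μ := by
  have h1 := (summ hd).hasSum.tendsto_sum_nat
  have h2 : ∀ᶠ m : ℕ in atTop, green d - ε / 2 <
      ∑ n ∈ Finset.range m, (walks d n : ℝ) / (2 * d) ^ (n + 1) := by
    apply h1.eventually
    apply lt_mem_nhds
    show green d - ε / 2 < green d
    linarith
  obtain ⟨m, hm⟩ := eventually_atTop.1 h2
  have h3 := hm (2 * m) (by omega)
  have h4 := (cont_term hd (2 * m)).eventually (lt_mem_nhds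
    (show ∑ n ∈ Finset.range (2 * m), (walks d n : ℝ) / (2 * d) ^ (n + 1) - ε / 2 <
      ∑ n ∈ Finset.range (2 * m), (walks d n : ℝ) / (2 * d) ^ (n + 1) by linarith))
  obtain ⟨μ, hμ1, hμ2⟩ := (h4.and self_mem_nhdsWithin).exists
  refine ⟨μ, hμ2, fun L _ => ?_⟩
  have h5 := gT_ge (d := d) (L := L) μ hμ2 m
  linarith

theorem green_nonneg (hd : 3 ≤ d) : 0 ≤ green d := by
  unfold green
  exact tsum_nonneg fun n => by positivity

end Pool.Agent.L5helper95.BE
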