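import Pool.Agent.L5helper95.BE.Spec

/-! The resolvent of the torus Laplacian applied to the potential, and the energy of the positive
eigenfunction. -/

set_option autoImplicit false
set_option linter.unusedSectionVars false

open scoped BigOperators

namespace Pool.Agent.L5helper95.BE

open Pool.Agent.W788.MFP.Four

variable {d L : ℕ} [NeZero L]

/-- the adjacency operator -/
noncomputable def Ad (f : T d L → ℝ) (x : T d L) : ℝ :=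
  ∑ i : Fin d, (f (x + Pi.single i 1) + f (x - Pi.single i 1))

/-- the Dirichlet form -/
noncomputable def Dir (f g : T d L → ℝ) : ℝ :=
  ∑ x, ∑ i : Fin d, (f x - f (x + Pi.single i 1)) * (g x - g (x + Pi.single i 1))

theorem sum_shift (F : T d L → ℝ) (a : T d L) : ∑ x, F (x + a) = ∑ x, F x :=
  Equiv.sum_comp (Equiv.addRight a) F

theorem Dir_eq (f g : T d L → ℝ) : Dir f g = 2 * d * ∑ x, f x * g x - ∑ x, f x * Ad g x := by
  have h1 : ∀ i : Fin d, ∑ x : T d L, (f x - f (x + Pi.single i 1)) * (g x - g (x + Pi.single i 1)) =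
      2 * ∑ x, f x * g x - ∑ x, f x * (g (x + Pi.single i 1) + g (x - Pi.single i 1)) := by
    intro i
    have h2 : ∀ x : T d L, (f x - f (x + Pi.single i 1)) * (g x - g (x + Pi.single i 1)) =
        f x * g x + f (x + Pi.single i 1) * g (x + Pi.single i 1) - f x * g (x + Pi.single i 1) -
          f (x + Pi.single i 1) * g x := fun x => by ring
    have h3 : ∑ x : T d L, f (x + Pi.single i 1) * g (x + Pi.single i 1) = ∑ x, f x * g x :=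
      sum_shift (fun x => f x * g x) _
    have h4 : ∑ x : T d L, f (x + Pi.single i 1) * g x = ∑ x, f x * g (x - Pi.single i 1) := by
      have h5 := sum_shift (fun x => f x * g (x - Pi.single i 1)) (Pi.single i 1 : T d L)
      rw [← h5]
      exact Finset.sum_congr rfl fun x _ => by rw [add_sub_cancel_right]
    simp only [h2]
    rw [Finset.sum_sub_distrib, Finset.sum_sub_distrib, Finset.sum_add_distrib, h3, h4]
    simp only [mul_add, Finset.sum_add_distrib]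
    ring
  unfold Dir
  rw [Finset.sum_comm, Finset.sum_congr rfl fun i _ => h1 i, Finset.sum_sub_distrib,
    Finset.sum_const, Finset.card_univ, Fintype.card_fin, nsmul_eq_mul]
  have h6 : ∑ x, f x * Ad g x =
      ∑ i : Fin d, ∑ x, f x * (g (x + Pi.single i 1) + g (x - Pi.single i 1)) := by
    rw [Finset.sum_comm]
    unfold Ad
    exact Finset.sum_congr rfl fun x _ => by rw [Finset.mul_sum]
  rw [h6]
  ring

theorem Dir_nonneg (f : T d L → ℝ) : 0 ≤ Dir f f :=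
  Finset.sum_nonneg fun _ _ => Finset.sum_nonneg fun _ _ => mul_self_nonneg _

/-- `(2d - Δ + μ)⁻¹ ξ` -/
noncomputable def W (μ : ℝ) (ξ : T d L → ℝ) : T d L → ℝ := Op (fun k => (ep k + μ)⁻¹) ξ

theorem W_eq (μ : ℝ) (hμ : 0 < μ) (ξ : T d L → ℝ) (x : T d L) :
    (2 * d + μ) * W μ ξ x - Ad (W μ ξ) x = ξ x := by
  have h1 := congrFun (Op_adj (2 * d + μ) (W μ ξ)) x
  unfold W at h1
  have hsym : ∀ k : T d L, (ep (-k) + μ)⁻¹ = (ep k + μ)⁻¹ := fun k => by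
    unfold ep
    rw [adj_neg]
  rw [Op_Op _ _ _ (fun k => by rw [adj_neg]) hsym] at h1
  have h2 : (fun k : T d L => (adj k - (2 * d + μ)) * (ep k + μ)⁻¹) = fun _ => -1 := by
    funext k
    have h3 := ep_nonneg k
    have h4 : adj k - (2 * d + μ) = -(ep k + μ) := by unfold ep; ring
    rw [h4, neg_mul, mul_inv_cancel₀ (by linarith)]
  have h5 : Op (fun _ => -1) ξ x = -ξ x := by
    have h6 : Op (fun _ => -1) ξ = fun x => -ξ x := by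
      apply ft_inj
      intro k
      rw [ft_Op _ _ fun _ => rfl]
      unfold ft
      push_cast
      simp
    rw [h6]
  rw [h2, h5] at h1
  unfold Ad W
  linarith

theorem sum_W (μ : ℝ) (hμ : 0 < μ) (ξ g : T d L → ℝ) :
    ∑ x, ξ x * g x = Dir g (W μ ξ) + μ * ∑ x, g x * W μ ξ x := by
  have h1 : ∑ x, ξ x * g x = ∑ x, ((2 * d + μ) * (g x * W μ ξ x) - g x * Ad (W μ ξ) x) := by
    refine Finset.sum_congr rfl fun x _ => ?_
    have := W_eq μ hμ ξ x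
    rw [← this]
    ring
  rw [h1, Finset.sum_sub_distrib, ← Finset.mul_sum, Dir_eq]
  ring

/-- the quadratic form `⟨ξ, (2d - Δ + μ)⁻¹ ξ⟩` -/
noncomputable def Q (μ : ℝ) (ξ : T d L → ℝ) : ℝ := ∑ x, ξ x * W μ ξ x

theorem Q_eq (μ : ℝ) (hμ : 0 < μ) (ξ : T d L → ℝ) :
    Q μ ξ = Dir (W μ ξ) (W μ ξ) + μ * ∑ x, W μ ξ x ^ 2 := by
  unfold Q
  rw [sum_W μ hμ ξ (W μ ξ)]
  congr 2
  exact Finset.sum_congr rfl fun x _ => by ring

theorem Q_nonneg (μ : ℝ) (hμ : 0 < μ) (ξ : T d L → ℝ) : 0 ≤ Q μ ξ := by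
  rw [Q_eq μ hμ]
  have := Dir_nonneg (W μ ξ)
  have h2 : 0 ≤ ∑ x, W μ ξ x ^ 2 := Finset.sum_nonneg fun x _ => sq_nonneg _
  positivity

theorem Q_le (μ : ℝ) (hμ : 0 < μ) (ξ : T d L → ℝ) : Q μ ξ ≤ μ⁻¹ * ∑ x, ξ x ^ 2 := by
  have h1 := Q_eq μ hμ ξ
  have h2 := Dir_nonneg (W μ ξ)
  have h3 : Q μ ξ ≤ ∑ x, (μ⁻¹ / 2 * ξ x ^ 2 + μ / 2 * W μ ξ x ^ 2) := by
    unfold Q
    refine Finset.sum_le_sum fun x _ => ?_
    have h4 : 0 ≤ μ / 2 * (μ⁻¹ * ξ x - W μ ξ x) ^ 2 := by positivity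
    have h5 : μ / 2 * (μ⁻¹ * ξ x - W μ ξ x) ^ 2 =
        μ⁻¹ / 2 * ξ x ^ 2 + μ / 2 * W μ ξ x ^ 2 - ξ x * W μ ξ x := by
      field_simp
      ring
    linarith
  rw [Finset.sum_add_distrib, ← Finset.mul_sum, ← Finset.mul_sum] at h3
  linarith

theorem W_sq (μ : ℝ) (hμ : 0 < μ) (ξ : T d L → ℝ) :
    ∑ x, W μ ξ x ^ 2 ≤ (μ⁻¹) ^ 2 * ∑ x, ξ x ^ 2 := by
  have h1 := Q_eq μ hμ ξ
  have h2 := Dir_nonneg (W μ ξ)
  have h3 := Q_le μ hμ ξ
  have h4 : μ * ∑ x, W μ ξ x ^ 2 ≤ μ⁻¹ * ∑ x, ξ x ^ 2 := by linarith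
  have h5 := mul_le_mul_of_nonneg_left h4 (inv_nonneg.2 hμ.le)
  rw [← mul_assoc, inv_mul_cancel₀ hμ.ne', one_mul] at h5
  calc _ ≤ _ := h5
    _ = _ := by ring

theorem Dir_cube (f : T d L → ℝ) : 0 ≤ Dir (fun x => f x ^ 3) f := by
  unfold Dir
  refine Finset.sum_nonneg fun x _ => Finset.sum_nonneg fun i _ => ?_
  have : (f x ^ 3 - f (x + Pi.single i 1) ^ 3) * (f x - f (x + Pi.single i 1)) =
      (f x - f (x + Pi.single i 1)) ^ 2 * ((f x + f (x + Pi.single i 1) / 2) ^ 2 +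
        3 / 4 * f (x + Pi.single i 1) ^ 2) := by ring
  rw [this]
  positivity

theorem W_four (μ : ℝ) (hμ : 0 < μ) (ξ : T d L → ℝ) :
    ∑ x, W μ ξ x ^ 4 ≤ (μ⁻¹) ^ 4 * ∑ x, ξ x ^ 4 := by
  have h1 := sum_W μ hμ ξ (fun x => W μ ξ x ^ 3)
  have h2 := Dir_cube (W μ ξ)
  have h3 : ∑ x, W μ ξ x ^ 3 * W μ ξ x = ∑ x, W μ ξ x ^ 4 :=
    Finset.sum_congr rfl fun x _ => by ring
  rw [h3] at h1
  -- Young
  have h4 : ∑ x, ξ x * W μ ξ x ^ 3 ≤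
      ∑ x, (μ * ((μ⁻¹) ^ 4 / 4 * ξ x ^ 4) + μ * (3 / 4 * W μ ξ x ^ 4)) := by
    refine Finset.sum_le_sum fun x _ => ?_
    obtain ⟨a, ha⟩ : ∃ a, a = μ⁻¹ * ξ x := ⟨_, rfl⟩
    obtain ⟨b, hb⟩ : ∃ b, b = W μ ξ x := ⟨_, rfl⟩
    have h5 : ξ x = μ * a := by rw [ha]; field_simp
    have h6 : a * b ^ 3 ≤ 1 / 4 * a ^ 4 + 3 / 4 * b ^ 4 := by
      nlinarith [sq_nonneg (a ^ 2 - b ^ 2), sq_nonneg (a - b), sq_nonneg (a * b - b ^ 2),
        sq_nonneg (a * b), sq_nonneg (a * (a - b)), sq_nonneg (b * (a - b)), sq_nonneg (a + b)]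
    have h7 : (μ⁻¹) ^ 4 / 4 * ξ x ^ 4 = 1 / 4 * a ^ 4 := by rw [ha]; ring
    rw [h7, ← hb, h5]
    have h8 := mul_le_mul_of_nonneg_left h6 hμ.le
    linarith
  rw [Finset.sum_add_distrib, ← Finset.mul_sum, ← Finset.mul_sum, ← Finset.mul_sum,
    ← Finset.mul_sum] at h4
  have h5 : μ * ∑ x, W μ ξ x ^ 4 ≤
      μ * ((μ⁻¹) ^ 4 / 4 * ∑ x, ξ x ^ 4) + μ * (3 / 4 * ∑ x, W μ ξ x ^ 4) := by linarith
  have h6 : μ * (∑ x, W μ ξ x ^ 4) ≤ μ * ((μ⁻¹) ^ 4 * ∑ x, ξ x ^ 4) := by linarith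
  exact le_of_mul_le_mul_left h6 hμ

theorem W_sum (μ : ℝ) (hμ : 0 < μ) (ξ : T d L → ℝ) : μ * ∑ x, W μ ξ x = ∑ x, ξ x := by
  have h1 := sum_W μ hμ ξ (fun _ => 1)
  have h2 : Dir (fun _ : T d L => (1 : ℝ)) (W μ ξ) = 0 := by
    unfold Dir
    simp
  rw [h2] at h1
  simp only [mul_one, one_mul, zero_add] at h1
  exact h1.symm

/-- **Upper bound for the energy of a flat eigenfunction.** -/
theorem upper (σ μ η Et : ℝ) (hσ : 0 < σ) (hμ : 0 < μ) (hη : 0 ≤ η) (ξ ψ : T d L → ℝ)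
    (h1 : ∀ x, 1 ≤ ψ x ∧ ψ x ≤ 1 + η) (h : ∀ x, Ad ψ x + σ * ξ x * ψ x = Et * ψ x) :
    (Et - 2 * d) * NN d L ≤ (1 + η) ^ 2 * (σ ^ 2 * Q μ ξ + μ * NN d L / 4) := by
  have hN : 0 < NN d L := NN_pos
  have a1 : (Et - 2 * d) * ∑ x, ψ x ^ 2 = σ * ∑ x, ξ x * ψ x ^ 2 - Dir ψ ψ := by
    rw [Dir_eq]
    have a2 : ∑ x, ψ x * Ad ψ x + σ * ∑ x, ξ x * ψ x ^ 2 = Et * ∑ x, ψ x ^ 2 := by
      rw [Finset.mul_sum, Finset.mul_sum, ← Finset.sum_add_distrib]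
      refine Finset.sum_congr rfl fun x _ => ?_
      have := h x
      linear_combination ψ x * this
    have a3 : ∑ x, ψ x * ψ x = ∑ x, ψ x ^ 2 := Finset.sum_congr rfl fun x _ => by ring
    rw [a3]
    linear_combination -a2
  have a4 := sum_W μ hμ ξ (fun x => ψ x ^ 2)
  have a5 : σ * Dir (fun x => ψ x ^ 2) (W μ ξ) ≤
      Dir ψ ψ + σ ^ 2 * (1 + η) ^ 2 * Dir (W μ ξ) (W μ ξ) := by
    unfold Dir
    rw [Finset.mul_sum, Finset.mul_sum, ← Finset.sum_add_distrib]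
    refine Finset.sum_le_sum fun x _ => ?_
    rw [Finset.mul_sum, Finset.mul_sum, ← Finset.sum_add_distrib]
    refine Finset.sum_le_sum fun i _ => ?_
    obtain ⟨p, hp⟩ : ∃ p, p = ψ x := ⟨_, rfl⟩
    obtain ⟨q, hq⟩ : ∃ q, q = ψ (x + Pi.single i 1) := ⟨_, rfl⟩
    obtain ⟨b, hb⟩ : ∃ b, b = W μ ξ x - W μ ξ (x + Pi.single i 1) := ⟨_, rfl⟩
    beta_reduce
    rw [← hp, ← hq, ← hb]
    have b1 := h1 x
    have b2 := h1 (x + Pi.single i 1)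
    rw [← hp] at b1
    rw [← hq] at b2
    have b3 : (p + q) ^ 2 ≤ 4 * (1 + η) ^ 2 := by nlinarith
    have b4 : 0 ≤ ((p - q) - σ * (p + q) * b / 2) ^ 2 := sq_nonneg _
    have b5 : ((p - q) - σ * (p + q) * b / 2) ^ 2 =
        (p - q) * (p - q) - σ * ((p ^ 2 - q ^ 2) * b) + σ ^ 2 * (p + q) ^ 2 * (b * b) / 4 := by ring
    have b6 : σ ^ 2 * (p + q) ^ 2 * (b * b) / 4 ≤ σ ^ 2 * (1 + η) ^ 2 * (b * b) := by
      have : σ ^ 2 * (b * b) * (p + q) ^ 2 ≤ σ ^ 2 * (b * b) * (4 * (1 + η) ^ 2) :=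
        mul_le_mul_of_nonneg_left b3 (mul_nonneg (sq_nonneg _) (mul_self_nonneg _))
      linarith
    linarith
  have a6 : σ * μ * ∑ x, ψ x ^ 2 * W μ ξ x ≤
      (1 + η) ^ 2 * (σ ^ 2 * μ * ∑ x, W μ ξ x ^ 2 + μ * NN d L / 4) := by
    have b1 : σ * μ * ∑ x, ψ x ^ 2 * W μ ξ x ≤
        ∑ x, (1 + η) ^ 2 * μ * (σ ^ 2 * W μ ξ x ^ 2 + 1 / 4) := by
      rw [Finset.mul_sum]
      refine Finset.sum_le_sum fun x _ => ?_
      have b2 : σ * W μ ξ x ≤ σ ^ 2 * W μ ξ x ^ 2 + 1 / 4 := by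
        nlinarith [sq_nonneg (σ * W μ ξ x - 1 / 2)]
      have b3 : 0 ≤ σ ^ 2 * W μ ξ x ^ 2 + 1 / 4 := by positivity
      have b4 : ψ x ^ 2 ≤ (1 + η) ^ 2 :=
        pow_le_pow_left₀ (by linarith [(h1 x).1]) (h1 x).2 2
      calc σ * μ * (ψ x ^ 2 * W μ ξ x) = μ * ψ x ^ 2 * (σ * W μ ξ x) := by ring
        _ ≤ μ * ψ x ^ 2 * (σ ^ 2 * W μ ξ x ^ 2 + 1 / 4) :=
            mul_le_mul_of_nonneg_left b2 (by positivity)
        _ ≤ μ * (1 + η) ^ 2 * (σ ^ 2 * W μ ξ x ^ 2 + 1 / 4) := by gcongr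
        _ = _ := by ring
    rw [← Finset.mul_sum, Finset.sum_add_distrib, ← Finset.mul_sum, Finset.sum_const,
      Finset.card_univ, nsmul_eq_mul, card_T] at b1
    calc _ ≤ _ := b1
      _ = _ := by ring
  have a7 := Q_eq μ hμ ξ
  have a8 : (Et - 2 * d) * ∑ x, ψ x ^ 2 ≤ (1 + η) ^ 2 * (σ ^ 2 * Q μ ξ + μ * NN d L / 4) := by
    rw [a1, a4, a7]
    have : (1 + η) ^ 2 * (σ ^ 2 * (Dir (W μ ξ) (W μ ξ) + μ * ∑ x, W μ ξ x ^ 2) +
        μ * NN d L / 4) = σ ^ 2 * (1 + η) ^ 2 * Dir (W μ ξ) (W μ ξ) +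
        (1 + η) ^ 2 * (σ ^ 2 * μ * ∑ x, W μ ξ x ^ 2 + μ * NN d L / 4) := by ring
    rw [this]
    linarith
  rcases le_total (Et - 2 * d) 0 with h0 | h0
  · have b1 : (Et - 2 * d) * NN d L ≤ 0 := mul_nonpos_of_nonpos_of_nonneg h0 hN.le
    have b2 := Q_nonneg μ hμ ξ
    have b3 : 0 ≤ (1 + η) ^ 2 * (σ ^ 2 * Q μ ξ + μ * NN d L / 4) := by positivity
    linarith
  · have b1 : NN d L ≤ ∑ x, ψ x ^ 2 := by
      rw [← card_T]
      calc (Fintype.card (T d L) : ℝ) = ∑ _x : T d L, (1 : ℝ) := by simp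
        _ ≤ _ := Finset.sum_le_sum fun x _ => one_le_pow₀ (h1 x).1
    exact (mul_le_mul_of_nonneg_left b1 h0).trans a8

/-- the variational principle for a positive eigenfunction -/
theorem vari (σ Et : ℝ) (ξ ψ φ : T d L → ℝ) (h1 : ∀ x, 0 < ψ x)
    (h : ∀ x, Ad ψ x + σ * ξ x * ψ x = Et * ψ x) :
    ∑ x, φ x * Ad φ x + σ * ∑ x, ξ x * φ x ^ 2 ≤ Et * ∑ x, φ x ^ 2 := by
  obtain ⟨g, hg⟩ : ∃ g : T d L → ℝ, g = fun x => φ x / ψ x := ⟨_, rfl⟩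
  have hφ : φ = fun x => ψ x * g x := by
    funext x
    rw [hg]
    have := (h1 x).ne'
    field_simp
  have key : ∑ x, (ψ x * g x ^ 2) * Ad ψ x - ∑ x, φ x * Ad φ x =
      ∑ x, ∑ i : Fin d, ψ x * ψ (x + Pi.single i 1) * (g x - g (x + Pi.single i 1)) ^ 2 := by
    have e1 : ∀ i : Fin d, ∑ x, (ψ x * g x ^ 2) * (ψ (x + Pi.single i 1) + ψ (x - Pi.single i 1)) -
        ∑ x, ψ x * g x * (ψ (x + Pi.single i 1) * g (x + Pi.single i 1) +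
          ψ (x - Pi.single i 1) * g (x - Pi.single i 1)) =
        ∑ x, ψ x * ψ (x + Pi.single i 1) * (g x - g (x + Pi.single i 1)) ^ 2 := by
      intro i
      have e2 : ∑ x, (ψ x * g x ^ 2) * ψ (x - Pi.single i 1) =
          ∑ x, (ψ (x + Pi.single i 1) * g (x + Pi.single i 1) ^ 2) * ψ x := by
        have h5 := sum_shift (fun x => (ψ x * g x ^ 2) * ψ (x - Pi.single i 1))
          (Pi.single i 1 : T d L)
        rw [← h5]
        exact Finset.sum_congr rfl fun x _ => by rw [add_sub_cancel_right]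
      have e3 : ∑ x, ψ x * g x * (ψ (x - Pi.single i 1) * g (x - Pi.single i 1)) =
          ∑ x, ψ (x + Pi.single i 1) * g (x + Pi.single i 1) * (ψ x * g x) := by
        have h5 := sum_shift (fun x => ψ x * g x * (ψ (x - Pi.single i 1) * g (x - Pi.single i 1)))
          (Pi.single i 1 : T d L)
        rw [← h5]
        exact Finset.sum_congr rfl fun x _ => by rw [add_sub_cancel_right]
      simp only [mul_add, Finset.sum_add_distrib]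
      rw [e2, e3, ← Finset.sum_add_distrib, ← Finset.sum_add_distrib, ← Finset.sum_sub_distrib]
      exact Finset.sum_congr rfl fun x _ => by ring
    have e4 : ∀ (u v : T d L → ℝ), ∑ x, u x * Ad v x =
        ∑ i : Fin d, ∑ x, u x * (v (x + Pi.single i 1) + v (x - Pi.single i 1)) := by
      intro u v
      rw [Finset.sum_comm]
      unfold Ad
      exact Finset.sum_congr rfl fun x _ => by rw [Finset.mul_sum]
    have e5 : ∑ x, ∑ i : Fin d, ψ x * ψ (x + Pi.single i 1) *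
        (g x - g (x + Pi.single i 1)) ^ 2 = ∑ i : Fin d, ∑ x, ψ x * ψ (x + Pi.single i 1) *
        (g x - g (x + Pi.single i 1)) ^ 2 := Finset.sum_comm
    rw [e4, e4, e5, ← Finset.sum_sub_distrib]
    refine Finset.sum_congr rfl fun i _ => ?_
    rw [← e1 i, hφ]
  have h2 : Et * ∑ x, φ x ^ 2 = ∑ x, (ψ x * g x ^ 2) * Ad ψ x + σ * ∑ x, ξ x * φ x ^ 2 := by
    rw [Finset.mul_sum, Finset.mul_sum, ← Finset.sum_add_distrib]
    refine Finset.sum_congr rfl fun x _ => ?_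
    have h3 := h x
    rw [hφ]
    linear_combination -(ψ x * g x ^ 2) * h3
  have h4 : 0 ≤ ∑ x, ∑ i : Fin d,
      ψ x * ψ (x + Pi.single i 1) * (g x - g (x + Pi.single i 1)) ^ 2 :=
    Finset.sum_nonneg fun x _ => Finset.sum_nonneg fun i _ =>
      mul_nonneg (mul_nonneg (h1 _).le (h1 _).le) (sq_nonneg _)
  linarith

/-- **Lower bound for the energy of a positive eigenfunction.** -/
theorem lower (σ μ δ Et : ℝ) (hσ : 0 < σ) (hμ : 0 < μ) (ξ ψ : T d L → ℝ)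
    (h1 : ∀ x, 0 < ψ x) (h : ∀ x, Ad ψ x + σ * ξ x * ψ x = Et * ψ x) (hδ0 : 0 ≤ δ)
    (hδ2 : δ ≤ 2) (hδ : Et - 2 * d ≤ δ) (hδ' : -2 ≤ Et - 2 * d) :
    σ ^ 2 * Q μ ξ - σ * (1 + 4 * μ⁻¹) * |∑ x, ξ x| -
      σ ^ 3 / 2 * (∑ x, ξ x ^ 2 + (μ⁻¹) ^ 4 * ∑ x, ξ x ^ 4) -
      δ * σ ^ 2 * (μ⁻¹) ^ 2 * ∑ x, ξ x ^ 2 ≤ (Et - 2 * d) * NN d L := by
  have hN : 0 < NN d L := NN_pos
  obtain ⟨w, hw⟩ : ∃ w, w = W μ ξ := ⟨_, rfl⟩
  have v1 := vari σ Et ξ ψ (fun x => 1 + σ * w x) h1 h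
  have v2 := Dir_eq (fun x => 1 + σ * w x) (fun x => 1 + σ * w x)
  have v3 : Dir (fun x => 1 + σ * w x) (fun x => 1 + σ * w x) = σ ^ 2 * Dir w w := by
    unfold Dir
    rw [Finset.mul_sum]
    refine Finset.sum_congr rfl fun x _ => ?_
    rw [Finset.mul_sum]
    exact Finset.sum_congr rfl fun i _ => by ring
  have v4 := Q_eq μ hμ ξ
  rw [← hw] at v4
  have v5 : ∑ x, (1 + σ * w x) * (1 + σ * w x) = ∑ x, (1 + σ * w x) ^ 2 :=
    Finset.sum_congr rfl fun x _ => by ring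
  rw [v5] at v2
  obtain ⟨S0, hS0⟩ : ∃ S0, S0 = ∑ x, (1 + σ * w x) ^ 2 := ⟨_, rfl⟩
  have v6 : S0 = NN d L + 2 * σ * ∑ x, w x + σ ^ 2 * ∑ x, w x ^ 2 := by
    rw [hS0, ← card_T, Finset.mul_sum, Finset.mul_sum]
    have : (Fintype.card (T d L) : ℝ) = ∑ _x : T d L, (1 : ℝ) := by simp
    rw [this, ← Finset.sum_add_distrib, ← Finset.sum_add_distrib]
    exact Finset.sum_congr rfl fun x _ => by ring
  have v7 : ∑ x, ξ x * (1 + σ * w x) ^ 2 =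
      ∑ x, ξ x + 2 * σ * Q μ ξ + σ ^ 2 * ∑ x, ξ x * w x ^ 2 := by
    unfold Q
    rw [← hw, Finset.mul_sum, Finset.mul_sum, ← Finset.sum_add_distrib, ← Finset.sum_add_distrib]
    exact Finset.sum_congr rfl fun x _ => by ring
  have v8 := W_sum μ hμ ξ
  rw [← hw] at v8
  have v9 := W_sq μ hμ ξ
  have v10 := W_four μ hμ ξ
  rw [← hw] at v9 v10
  rw [← hS0] at v1 v2
  rw [v7] at v1
  -- the cubic term
  have v11 : -(1 / 2 * (∑ x, ξ x ^ 2 + ∑ x, w x ^ 4)) ≤ ∑ x, ξ x * w x ^ 2 := by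
    rw [← Finset.sum_add_distrib, Finset.mul_sum, ← Finset.sum_neg_distrib]
    refine Finset.sum_le_sum fun x _ => ?_
    nlinarith [sq_nonneg (ξ x + w x ^ 2)]
  -- the linear term
  have v12 : |∑ x, w x| = μ⁻¹ * |∑ x, ξ x| := by
    rw [← v8, abs_mul, abs_of_pos hμ, ← mul_assoc, inv_mul_cancel₀ hμ.ne', one_mul]
  have v13 : -(2 * |∑ x, w x|) ≤ -((Et - 2 * d) * ∑ x, w x) := by
    apply neg_le_neg
    calc (Et - 2 * d) * ∑ x, w x ≤ |(Et - 2 * d) * ∑ x, w x| := le_abs_self _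
      _ = |Et - 2 * d| * |∑ x, w x| := abs_mul _ _
      _ ≤ 2 * |∑ x, w x| := by
          apply mul_le_mul_of_nonneg_right _ (abs_nonneg _)
          rw [abs_le]
          constructor <;> linarith
  have v14 : (Et - 2 * d) * ∑ x, w x ^ 2 ≤ δ * ((μ⁻¹) ^ 2 * ∑ x, ξ x ^ 2) := by
    have : 0 ≤ ∑ x, w x ^ 2 := Finset.sum_nonneg fun x _ => sq_nonneg _
    calc (Et - 2 * d) * ∑ x, w x ^ 2 ≤ δ * ∑ x, w x ^ 2 := mul_le_mul_of_nonneg_right hδ this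
      _ ≤ _ := mul_le_mul_of_nonneg_left v9 hδ0
  have v15 : -|∑ x, ξ x| ≤ ∑ x, ξ x := neg_abs_le _
  have hw2 : 0 ≤ ∑ x, w x ^ 2 := Finset.sum_nonneg fun x _ => sq_nonneg _
  -- assemble
  have e1 : (Et - 2 * d) * NN d L = (Et - 2 * d) * S0 - 2 * σ * ((Et - 2 * d) * ∑ x, w x) -
      σ ^ 2 * ((Et - 2 * d) * ∑ x, w x ^ 2) := by rw [v6]; ring
  have e2 : σ * ∑ x, ξ x + σ ^ 2 * Q μ ξ + σ ^ 2 * (μ * ∑ x, w x ^ 2) +
      σ ^ 3 * ∑ x, ξ x * w x ^ 2 ≤ (Et - 2 * d) * S0 := by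
    have : Dir w w = Q μ ξ - μ * ∑ x, w x ^ 2 := by linarith
    rw [v3, this] at v2
    nlinarith [v1, v2]
  have e3 := mul_le_mul_of_nonneg_left v11 (by positivity : 0 ≤ σ ^ 3)
  have e4 := mul_le_mul_of_nonneg_left v13 (by positivity : 0 ≤ 2 * σ)
  have e5 := mul_le_mul_of_nonneg_left v14 (by positivity : 0 ≤ σ ^ 2)
  have e6 := mul_le_mul_of_nonneg_left v15 hσ.le
  have e7 := mul_le_mul_of_nonneg_left v10 (by positivity : 0 ≤ σ ^ 3 / 2)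
  have e8 : 0 ≤ σ ^ 2 * (μ * ∑ x, w x ^ 2) := by positivity
  rw [v12] at e4
  rw [e1]
  linarith

end Pool.Agent.L5helper95.BE
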