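import Pool.Agent.W788.MFP.Dos2
import Pool.Agent.W788.MFP.Form

/-! The spectrum of the lattice Laplacian on the discrete torus near the band edge. -/

set_option autoImplicit false
set_option linter.unusedSectionVars false

open scoped BigOperators

namespace Pool.Agent.L5helper95.BE

open Pool.Agent.W788.MFP.Four

variable {d L : ℕ} [NeZero L]

/-- one-dimensional symbol -/
noncomputable def lam (j : ZMod L) : ℝ := 2 - 2 * (ZMod.stdAddChar j : ℂ).re

/-- the symbol of `2d - Δ` -/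
noncomputable def ep (k : T d L) : ℝ := 2 * d - adj k

theorem ep_eq (k : T d L) : ep k = ∑ i, lam (k i) := by
  unfold ep lam adj
  rw [Finset.sum_sub_distrib, Finset.sum_const, Finset.card_univ, Fintype.card_fin, nsmul_eq_mul]
  ring

theorem L_pos : (0 : ℝ) < L := by exact_mod_cast Nat.pos_of_ne_zero (NeZero.ne L)

theorem L_one : (1 : ℝ) ≤ L := by exact_mod_cast Nat.one_le_iff_ne_zero.2 (NeZero.ne L)

theorem lam_ge (j : ZMod L) : 16 * (j.valMinAbs : ℝ) ^ 2 / (L : ℝ) ^ 2 ≤ lam j := by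
  have hL : (0 : ℝ) < L := L_pos
  obtain ⟨v, hv⟩ : ∃ v : ℤ, v = j.valMinAbs := ⟨_, rfl⟩
  have h1 : (ZMod.stdAddChar j : ℂ).re = Real.cos (2 * Real.pi * v / L) := by
    have h2 : (ZMod.stdAddChar j : ℂ) = Complex.exp (2 * Real.pi * Complex.I * v / L) := by
      rw [← ZMod.stdAddChar_coe, hv, ZMod.coe_valMinAbs]
    rw [h2]
    have h3 : (2 * Real.pi * Complex.I * v / L : ℂ) =
        ((2 * Real.pi * v / L : ℝ) : ℂ) * Complex.I := by
      push_cast
      ring
    rw [h3, Complex.exp_ofReal_mul_I_re]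
  have h4 : |2 * Real.pi * v / L| ≤ Real.pi := by
    have h5 := j.valMinAbs_mem_Ioc
    rw [← hv] at h5
    obtain ⟨h6, h7⟩ := h5
    have h8 : |(v : ℝ) * 2| ≤ L := by
      rw [abs_le]
      constructor
      · have : (-(L : ℤ) : ℝ) < v * 2 := by exact_mod_cast h6
        push_cast at this
        linarith
      · have : ((v : ℝ) * 2) ≤ L := by exact_mod_cast h7
        exact this
    have h9 : 2 * Real.pi * v / L = Real.pi * ((v * 2) / L) := by ring
    rw [h9, abs_mul, abs_of_pos Real.pi_pos, abs_div, abs_of_pos hL]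
    have h10 : |(v : ℝ) * 2| / L ≤ 1 := by
      rw [div_le_one hL]
      exact h8
    calc Real.pi * (|(v : ℝ) * 2| / L) ≤ Real.pi * 1 :=
        mul_le_mul_of_nonneg_left h10 Real.pi_pos.le
      _ = Real.pi := mul_one _
  have h11 := Real.cos_le_one_sub_mul_cos_sq h4
  have h12 : 2 / Real.pi ^ 2 * (2 * Real.pi * v / L) ^ 2 = 8 * (v : ℝ) ^ 2 / (L : ℝ) ^ 2 := by
    have hpi : Real.pi ≠ 0 := Real.pi_pos.ne'
    field_simp
    ring
  rw [h12] at h11
  unfold lam
  rw [h1, ← hv]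
  have h13 : 16 * (v : ℝ) ^ 2 / (L : ℝ) ^ 2 = 2 * (8 * (v : ℝ) ^ 2 / (L : ℝ) ^ 2) := by ring
  rw [h13]
  linarith

theorem lam_nonneg (j : ZMod L) : 0 ≤ lam j := le_trans (by positivity) (lam_ge j)

theorem ep_nonneg (k : T d L) : 0 ≤ ep k := by
  rw [ep_eq]
  exact Finset.sum_nonneg fun i _ => lam_nonneg _

theorem ep_ge (k : T d L) (hk : k ≠ 0) : 16 / (L : ℝ) ^ 2 ≤ ep k := by
  obtain ⟨i, hi⟩ : ∃ i, k i ≠ 0 := by
    by_contra hcon
    push Not at hcon
    exact hk (funext hcon)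
  have h1 : lam (k i) ≤ ep k := by
    rw [ep_eq]
    exact Finset.single_le_sum (f := fun i => lam (k i)) (fun i _ => lam_nonneg _)
      (Finset.mem_univ i)
  refine le_trans ?_ ((lam_ge (k i)).trans h1)
  have h2 : (k i).valMinAbs ≠ 0 := by
    intro h
    exact hi ((ZMod.valMinAbs_eq_zero (k i)).1 h)
  have h3 : (1 : ℝ) ≤ ((k i).valMinAbs : ℝ) ^ 2 := by
    have : (1 : ℤ) ≤ (k i).valMinAbs ^ 2 := by
      have := sq_pos_of_ne_zero h2
      omega
    exact_mod_cast this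
  have hL : (0 : ℝ) < L := L_pos
  apply div_le_div_of_nonneg_right _ (by positivity)
  linarith

theorem count1 (r : ℝ) (hr : 1 / (L : ℝ) ^ 2 ≤ r) :
    ((Finset.univ.filter fun j : ZMod L => lam j ≤ r).card : ℝ) ≤ 2 * L * Real.sqrt r := by
  classical
  have hL : (0 : ℝ) < L := L_pos
  have hr0 : 0 < r := lt_of_lt_of_le (by positivity) hr
  obtain ⟨m, hm⟩ : ∃ m : ℕ, m = ⌊L * Real.sqrt r / 4⌋₊ := ⟨_, rfl⟩
  have hm1 : (m : ℝ) ≤ L * Real.sqrt r / 4 := by
    rw [hm]
    exact Nat.floor_le (by positivity)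
  have h1 : (Finset.univ.filter fun j : ZMod L => lam j ≤ r).card ≤
      (Finset.Icc (-(m : ℤ)) m).card := by
    apply Finset.card_le_card_of_injOn (fun j => j.valMinAbs)
    · intro j hj
      have h2 : lam j ≤ r := by simpa using hj
      have h3 := (lam_ge j).trans h2
      rw [div_le_iff₀ (by positivity)] at h3
      have h4 : |(j.valMinAbs : ℝ)| ≤ L * Real.sqrt r / 4 := by
        apply abs_le_of_sq_le_sq _ (by positivity)
        rw [div_pow, mul_pow, Real.sq_sqrt hr0.le]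
        linarith
      have h5 : j.valMinAbs.natAbs ≤ m := by
        rw [hm]
        apply Nat.le_floor
        rw [Nat.cast_natAbs, Int.cast_abs]
        exact h4
      show j.valMinAbs ∈ (Finset.Icc (-(m : ℤ)) m : Set ℤ)
      rw [Finset.mem_coe, Finset.mem_Icc]
      omega
    · exact fun a _ b _ hab => ZMod.injective_valMinAbs hab
  rw [Int.card_Icc] at h1
  have h2 : ((Finset.univ.filter fun j : ZMod L => lam j ≤ r).card : ℝ) ≤ 2 * m + 1 := by
    have : (Finset.univ.filter fun j : ZMod L => lam j ≤ r).card ≤ 2 * m + 1 := by omega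
    exact_mod_cast this
  have h3 : 1 ≤ L * Real.sqrt r := by
    have h4 : 1 / (L : ℝ) ≤ Real.sqrt r := by
      apply Real.le_sqrt_of_sq_le
      rw [div_pow, one_pow]
      exact hr
    rw [div_le_iff₀ hL] at h4
    linarith
  linarith

theorem count_d (r : ℝ) (hr : 1 / (L : ℝ) ^ 2 ≤ r) :
    ((Finset.univ.filter fun k : T d L => ep k ≤ r).card : ℝ) ≤ (2 * L * Real.sqrt r) ^ d := by
  classical
  have h1 : (Finset.univ.filter fun k : T d L => ep k ≤ r) ⊆
      Fintype.piFinset fun _ : Fin d => Finset.univ.filter fun j : ZMod L => lam j ≤ r := by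
    intro k hk
    have h2 : ep k ≤ r := by simpa using hk
    rw [Fintype.mem_piFinset]
    intro i
    rw [Finset.mem_filter]
    refine ⟨Finset.mem_univ _, le_trans ?_ h2⟩
    rw [ep_eq]
    exact Finset.single_le_sum (f := fun i => lam (k i)) (fun i _ => lam_nonneg _)
      (Finset.mem_univ i)
  have h3 := Finset.card_le_card h1
  rw [Fintype.card_piFinset, Finset.prod_const, Finset.card_univ, Fintype.card_fin] at h3
  calc ((Finset.univ.filter fun k : T d L => ep k ≤ r).card : ℝ) ≤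
      (((Finset.univ.filter fun j : ZMod L => lam j ≤ r).card ^ d : ℕ) : ℝ) := by
        exact_mod_cast h3
    _ = ((Finset.univ.filter fun j : ZMod L => lam j ≤ r).card : ℝ) ^ d := by push_cast; rfl
    _ ≤ (2 * L * Real.sqrt r) ^ d := pow_le_pow_left₀ (Nat.cast_nonneg _) (count1 r hr) d

theorem count_d' (hd : 3 ≤ d) (r : ℝ) (hr : 1 / (L : ℝ) ^ 2 ≤ r) (hr1 : r ≤ 1) :
    ((Finset.univ.filter fun k : T d L => ep k ≤ r).card : ℝ) ≤ 2 ^ d * r ^ (3 / 2 : ℝ) * NN d L := by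
  refine (count_d r hr).trans ?_
  have hL : (0 : ℝ) < L := L_pos
  have hr0 : 0 < r := lt_of_lt_of_le (by positivity) hr
  have h1 : Real.sqrt r ^ d ≤ r ^ (3 / 2 : ℝ) := by
    rw [Real.sqrt_eq_rpow, ← Real.rpow_natCast, ← Real.rpow_mul hr0.le]
    apply Real.rpow_le_rpow_of_exponent_ge hr0 hr1
    have : (3 : ℝ) ≤ d := by exact_mod_cast hd
    linarith
  unfold NN
  rw [mul_pow, mul_pow]
  calc (2 : ℝ) ^ d * (L : ℝ) ^ d * Real.sqrt r ^ d ≤ 2 ^ d * (L : ℝ) ^ d * r ^ (3 / 2 : ℝ) := by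
        gcongr
    _ = _ := by ring

/-- the constant of `sum_ep` -/
noncomputable def CE (d : ℕ) : ℝ := 1 + 2 ^ d * 2 ^ (5 / 4 : ℝ) * 8

theorem CE_pos : 0 < CE d := by unfold CE; positivity

theorem geo (n : ℕ) : ∑ i ∈ Finset.range (n + 1), ((1 / 2 : ℝ) ^ (3 / 2 - 5 / 4 : ℝ)) ^ i ≤ 8 := by
  have e1 : (3 / 2 - 5 / 4 : ℝ) = 1 / 4 := by norm_num
  rw [e1]
  obtain ⟨x, hx⟩ : ∃ x : ℝ, x = (1 / 2 : ℝ) ^ (1 / 4 : ℝ) := ⟨_, rfl⟩
  rw [← hx]
  have hx0 : 0 ≤ x := by rw [hx]; positivity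
  have hx1 : x ≤ 7 / 8 := by
    have h1 : x ^ 4 ≤ (7 / 8) ^ 4 := by
      rw [hx, ← Real.rpow_natCast, ← Real.rpow_mul (by norm_num)]
      norm_num
    exact (pow_le_pow_iff_left₀ hx0 (by norm_num) (by norm_num)).1 h1
  have h3 : (∑ i ∈ Finset.range (n + 1), x ^ i) * (1 - x) = 1 - x ^ (n + 1) :=
    geom_sum_mul_neg x (n + 1)
  have h4 : 0 ≤ ∑ i ∈ Finset.range (n + 1), x ^ i := Finset.sum_nonneg fun i _ => by positivity
  have h5 : 0 ≤ x ^ (n + 1) := by positivity
  nlinarith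

/-- **Sum over the nonzero momenta.** -/
theorem sum_ep (hd : 3 ≤ d) :
    ∑ k ∈ (Finset.univ : Finset (T d L)).erase 0, (ep k) ^ (-(5 / 4) : ℝ) ≤ CE d * NN d L := by
  classical
  have hL : (0 : ℝ) < L := L_pos
  have hL1 : (1 : ℝ) ≤ L := L_one
  have hs1 : 1 / (L : ℝ) ^ 2 ≤ 1 := by
    rw [div_le_one (by positivity)]
    exact one_le_pow₀ hL1
  obtain ⟨n, -, h⟩ := Pool.Agent.W788.MFP.Dos.dy_sum (fun k : T d L => ep k) (1 / (L : ℝ) ^ 2)
    (5 / 4) (3 / 2) (2 ^ d) (NN d L) (by positivity) hs1 (by norm_num) card_T.le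
    (fun r hr hr1 => count_d' hd r hr hr1)
  calc ∑ k ∈ (Finset.univ : Finset (T d L)).erase 0, (ep k) ^ (-(5 / 4) : ℝ) =
      ∑ k ∈ (Finset.univ : Finset (T d L)).erase 0,
        (max (ep k) (1 / (L : ℝ) ^ 2)) ^ (-(5 / 4) : ℝ) := by
        refine Finset.sum_congr rfl fun k hk => ?_
        have h1 := ep_ge k (Finset.ne_of_mem_erase hk)
        have h2 : 1 / (L : ℝ) ^ 2 ≤ 16 / (L : ℝ) ^ 2 := by
          apply div_le_div_of_nonneg_right _ (by positivity)
          norm_num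
        rw [max_eq_left (h2.trans h1)]
    _ ≤ ∑ k : T d L, (max (ep k) (1 / (L : ℝ) ^ 2)) ^ (-(5 / 4) : ℝ) := by
        apply Finset.sum_le_sum_of_subset_of_nonneg (Finset.erase_subset _ _)
        intro k _ _
        apply Real.rpow_nonneg
        exact le_trans (by positivity) (le_max_right _ _)
    _ ≤ _ := h
    _ ≤ CE d * NN d L := by
        rw [mul_comm]
        apply mul_le_mul_of_nonneg_right _ NN_pos.le
        unfold CE
        have := geo n
        gcongr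

/-- the torus Green function at coinciding points, energy `2d + μ` -/
noncomputable def gT (d L : ℕ) [NeZero L] (μ : ℝ) : ℝ :=
  (NN d L)⁻¹ * ∑ k : T d L, (ep k + μ)⁻¹

theorem inv_split (x ν : ℝ) (hx : 0 < x) (hν : 0 < ν) :
    x⁻¹ ≤ (x + ν)⁻¹ + ν ^ (1 / 4 : ℝ) * x ^ (-(5 / 4) : ℝ) := by
  have h1 : x⁻¹ = (x + ν)⁻¹ + (ν / (x + ν)) * x⁻¹ := by
    field_simp
  have h2 : ν / (x + ν) ≤ (ν / x) ^ (1 / 4 : ℝ) := by
    have h3 : ν / (x + ν) ≤ 1 := by
      rw [div_le_one (by positivity)]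
      linarith
    have h4 : 0 < ν / (x + ν) := by positivity
    calc ν / (x + ν) = (ν / (x + ν)) ^ (1 : ℝ) := (Real.rpow_one _).symm
      _ ≤ (ν / (x + ν)) ^ (1 / 4 : ℝ) :=
          Real.rpow_le_rpow_of_exponent_ge h4 h3 (by norm_num)
      _ ≤ (ν / x) ^ (1 / 4 : ℝ) := by
          apply Real.rpow_le_rpow h4.le _ (by norm_num)
          apply div_le_div_of_nonneg_left hν.le hx
          linarith
  have h5 : (ν / x) ^ (1 / 4 : ℝ) * x⁻¹ = ν ^ (1 / 4 : ℝ) * x ^ (-(5 / 4) : ℝ) := by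
    rw [Real.div_rpow hν.le hx.le, ← Real.rpow_neg_one x, div_eq_mul_inv, ← Real.rpow_neg hx.le,
      mul_assoc, ← Real.rpow_add hx]
    norm_num
  have h6 : (ν / (x + ν)) * x⁻¹ ≤ (ν / x) ^ (1 / 4 : ℝ) * x⁻¹ :=
    mul_le_mul_of_nonneg_right h2 (by positivity)
  rw [h5] at h6
  linarith

/-- comparison of the Green functions at two energies -/
theorem gT_le (hd : 3 ≤ d) (μ ν : ℝ) (hμ : 0 < μ) (hν : 0 < ν) :
    gT d L μ ≤ 1 / (NN d L * μ) + gT d L ν + ν ^ (1 / 4 : ℝ) * CE d := by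
  classical
  have hN : 0 < NN d L := NN_pos
  have h1 : ∑ k : T d L, (ep k + μ)⁻¹ ≤ 1 / μ + (∑ k : T d L, (ep k + ν)⁻¹ +
      ν ^ (1 / 4 : ℝ) * (CE d * NN d L)) := by
    rw [← Finset.add_sum_erase _ _ (Finset.mem_univ (0 : T d L))]
    apply add_le_add
    · have := ep_nonneg (0 : T d L)
      rw [← one_div]
      apply one_div_le_one_div_of_le hμ
      linarith
    · calc ∑ k ∈ (Finset.univ : Finset (T d L)).erase 0, (ep k + μ)⁻¹ ≤
          ∑ k ∈ (Finset.univ : Finset (T d L)).erase 0,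
            ((ep k + ν)⁻¹ + ν ^ (1 / 4 : ℝ) * (ep k) ^ (-(5 / 4) : ℝ)) := by
            refine Finset.sum_le_sum fun k hk => ?_
            have h2 : 0 < ep k := lt_of_lt_of_le (by have : (0 : ℝ) < L := L_pos; positivity)
              (ep_ge k (Finset.ne_of_mem_erase hk))
            refine le_trans ?_ (inv_split (ep k) ν h2 hν)
            apply inv_anti₀ h2
            linarith
        _ = ∑ k ∈ (Finset.univ : Finset (T d L)).erase 0, (ep k + ν)⁻¹ +
            ν ^ (1 / 4 : ℝ) * ∑ k ∈ (Finset.univ : Finset (T d L)).erase 0,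
              (ep k) ^ (-(5 / 4) : ℝ) := by
            rw [Finset.sum_add_distrib, Finset.mul_sum]
        _ ≤ _ := by
            apply add_le_add
            · apply Finset.sum_le_sum_of_subset_of_nonneg (Finset.erase_subset _ _)
              intro k _ _
              have := ep_nonneg k
              positivity
            · exact mul_le_mul_of_nonneg_left (sum_ep hd) (by positivity)
  unfold gT
  calc (NN d L)⁻¹ * ∑ k : T d L, (ep k + μ)⁻¹ ≤ (NN d L)⁻¹ * (1 / μ + (∑ k : T d L, (ep k + ν)⁻¹ +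
      ν ^ (1 / 4 : ℝ) * (CE d * NN d L))) := mul_le_mul_of_nonneg_left h1 (by positivity)
    _ = _ := by
      field_simp
      ring

theorem gT_nonneg (μ : ℝ) (hμ : 0 < μ) : 0 ≤ gT d L μ := by
  unfold gT
  have hN : 0 < NN d L := NN_pos
  apply mul_nonneg (by positivity)
  refine Finset.sum_nonneg fun k _ => ?_
  have := ep_nonneg k
  positivity

end Pool.Agent.L5helper95.BE
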