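import Pool.Agent.L5helper95.BE.Spec

/-! Closed nearest-neighbour walks and the Green function at the band edge. -/

set_option autoImplicit false
set_option linter.unusedSectionVars false

open scoped BigOperators

namespace Pool.Agent.L5helper95.BE

open Pool.Agent.W788.MFP.Four

variable {d L : ℕ} [NeZero L]

/-- the `2d` unit steps of `ℤ^d` -/
def step (d : ℕ) (p : Fin d × Bool) : Fin d → ℤ :=
  if p.2 then Pi.single p.1 1 else -Pi.single p.1 1

/-- the number of closed nearest-neighbour walks with `n` steps that start at the origin -/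
noncomputable def walks (d n : ℕ) : ℕ :=
  Nat.card {s : Fin n → Fin d × Bool // ∑ j, step d (s j) = 0}

/-- the unit steps of the torus -/
def stepT (d L : ℕ) (p : Fin d × Bool) : T d L :=
  if p.2 then Pi.single p.1 1 else -Pi.single p.1 1

/-- closed walks on the torus -/
noncomputable def walksT (d L n : ℕ) : ℕ :=
  Nat.card {s : Fin n → Fin d × Bool // ∑ j, stepT d L (s j) = 0}

/-- reduction modulo `L` -/
def red (d L : ℕ) : (Fin d → ℤ) →+ T d L where
  toFun x := fun i => (x i : ZMod L)
  map_zero' := by funext i; simp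
  map_add' x y := by funext i; simp

theorem red_step (p : Fin d × Bool) : red d L (step d p) = stepT d L p := by
  unfold step stepT red
  split_ifs with h
  · funext i
    rcases eq_or_ne i p.1 with h1 | h1
    · subst h1; simp
    · simp [Pi.single_eq_of_ne h1]
  · funext i
    rcases eq_or_ne i p.1 with h1 | h1
    · subst h1; simp
    · simp [Pi.single_eq_of_ne h1]

theorem red_sum {n : ℕ} (s : Fin n → Fin d × Bool) :
    red d L (∑ j, step d (s j)) = ∑ j, stepT d L (s j) := by
  rw [map_sum]
  exact Finset.sum_congr rfl fun j _ => red_step _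

theorem walks_le (n : ℕ) : walks d n ≤ walksT d L n := by
  unfold walks walksT
  apply Nat.card_le_card_of_injective
    (fun s : {s : Fin n → Fin d × Bool // ∑ j, step d (s j) = 0} =>
      (⟨s.1, by rw [← red_sum, s.2, map_zero]⟩ :
        {s : Fin n → Fin d × Bool // ∑ j, stepT d L (s j) = 0}))
  intro s t h
  apply Subtype.ext
  exact Subtype.mk.inj h

theorem step_abs (p : Fin d × Bool) (i : Fin d) : |step d p i| ≤ 1 := by
  unfold step
  split_ifs with h
  · rcases eq_or_ne i p.1 with h1 | h1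
    · subst h1; simp
    · simp [Pi.single_eq_of_ne h1]
  · rcases eq_or_ne i p.1 with h1 | h1
    · subst h1; simp
    · simp [Pi.single_eq_of_ne h1]

theorem sum_step_abs {n : ℕ} (s : Fin n → Fin d × Bool) (i : Fin d) :
    |(∑ j, step d (s j)) i| ≤ n := by
  rw [Finset.sum_apply]
  refine (Finset.abs_sum_le_sum_abs _ _).trans ?_
  refine (Finset.sum_le_sum fun j _ => step_abs (s j) i).trans ?_
  simp

theorem walksT_eq (n : ℕ) (hn : n < L) : walksT d L n = walks d n := by
  apply le_antisymm _ (walks_le n)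
  unfold walks walksT
  apply Nat.card_le_card_of_injective
    (fun s : {s : Fin n → Fin d × Bool // ∑ j, stepT d L (s j) = 0} =>
      (⟨s.1, by
        have h1 := s.2
        rw [← red_sum] at h1
        funext i
        have h2 : (((∑ j, step d (s.1 j)) i : ℤ) : ZMod L) = 0 := congrFun h1 i
        rw [ZMod.intCast_zmod_eq_zero_iff_dvd] at h2
        have h3 := sum_step_abs s.1 i
        have h4 : |(∑ j, step d (s.1 j)) i| < (L : ℤ) := lt_of_le_of_lt h3 (by exact_mod_cast hn)
        exact Int.eq_zero_of_abs_lt_dvd h2 h4⟩ :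
        {s : Fin n → Fin d × Bool // ∑ j, step d (s j) = 0}))
  intro s t h
  apply Subtype.ext
  exact Subtype.mk.inj h

theorem adj_sum (k : T d L) : (adj k : ℂ) = ∑ p : Fin d × Bool, e k (stepT d L p) := by
  rw [Fintype.sum_prod_type]
  unfold adj
  push_cast
  refine Finset.sum_congr rfl fun i _ => ?_
  rw [Fintype.sum_bool]
  unfold stepT
  simp only [if_true, Bool.false_eq_true, if_false]
  rw [e_neg, e_single, Complex.add_conj]
  push_cast
  rfl

theorem e_sum {n : ℕ} (k : T d L) (x : Fin n → T d L) :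
    e k (∑ j, x j) = ∏ j, e k (x j) := by
  induction n with
  | zero => simp [e_zero]
  | succ n ih => rw [Fin.sum_univ_succ, Fin.prod_univ_succ, e_add, ih]

/-- the moments of the symbol count closed walks -/
theorem sum_adj_pow (n : ℕ) : ∑ k : T d L, adj k ^ n = NN d L * walksT d L n := by
  classical
  have h1 : ∑ k : T d L, (adj k : ℂ) ^ n =
      ∑ s : Fin n → Fin d × Bool, (if ∑ j, stepT d L (s j) = 0 then (NN d L : ℂ) else 0) := by
    have h2 : ∀ k : T d L, (adj k : ℂ) ^ n =
        ∑ s : Fin n → Fin d × Bool, e k (∑ j, stepT d L (s j)) := by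
      intro k
      rw [adj_sum, Fintype.sum_pow]
      exact Finset.sum_congr rfl fun s _ => (e_sum k _).symm
    simp only [h2]
    rw [Finset.sum_comm]
    exact Finset.sum_congr rfl fun s _ => sum_e _
  have h3 : (walksT d L n : ℂ) =
      ∑ s : Fin n → Fin d × Bool, (if ∑ j, stepT d L (s j) = 0 then (1 : ℂ) else 0) := by
    unfold walksT
    rw [Nat.card_eq_fintype_card, Fintype.card_subtype, Finset.sum_boole]
  have h4 : ∑ s : Fin n → Fin d × Bool, (if ∑ j, stepT d L (s j) = 0 then (NN d L : ℂ) else 0) =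
      NN d L * walksT d L n := by
    rw [h3, Finset.mul_sum]
    refine Finset.sum_congr rfl fun s _ => ?_
    split_ifs <;> simp
  rw [h4] at h1
  exact_mod_cast h1

/-- the finite geometric series -/
theorem geom (a x : ℝ) (n : ℕ) (ha : 0 < a) (hx : x < a) :
    (a - x)⁻¹ = ∑ i ∈ Finset.range n, x ^ i / a ^ (i + 1) + (x / a) ^ n * (a - x)⁻¹ := by
  have hax : a - x ≠ 0 := (sub_pos.2 hx).ne'
  induction n with
  | zero => simp
  | succ n ih =>
    rw [Finset.sum_range_succ]
    have h1 : (x / a) ^ n * (a - x)⁻¹ = x ^ n / a ^ (n + 1) + (x / a) ^ (n + 1) * (a - x)⁻¹ := by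
      rw [div_pow, div_pow]
      field_simp
      ring
    rw [add_assoc, ← h1]
    exact ih

theorem adj_lt (k : T d L) (μ : ℝ) (hμ : 0 < μ) : adj k < 2 * d + μ := by
  have h := ep_nonneg k
  unfold ep at h
  linarith

/-- lower bound for the torus Green function -/
theorem gT_ge (μ : ℝ) (hμ : 0 < μ) (m : ℕ) :
    ∑ n ∈ Finset.range (2 * m), (walks d n : ℝ) / (2 * d + μ) ^ (n + 1) ≤ gT d L μ := by
  have hN : 0 < NN d L := NN_pos
  have ha : 0 < 2 * (d : ℝ) + μ := by positivity
  have h1 : ∀ k : T d L, ∑ i ∈ Finset.range (2 * m), adj k ^ i / (2 * d + μ) ^ (i + 1) ≤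
      (ep k + μ)⁻¹ := by
    intro k
    have h2 := geom (2 * d + μ) (adj k) (2 * m) ha (adj_lt k μ hμ)
    have h3 : ep k + μ = 2 * d + μ - adj k := by unfold ep; ring
    rw [h3, h2]
    have h4 : 0 ≤ (adj k / (2 * d + μ)) ^ (2 * m) * (2 * d + μ - adj k)⁻¹ := by
      apply mul_nonneg
      · rw [pow_mul]
        positivity
      · rw [inv_nonneg]
        linarith [adj_lt k μ hμ]
    linarith
  have h5 := Finset.sum_le_sum fun (k : T d L) (_ : k ∈ Finset.univ) => h1 k
  rw [Finset.sum_comm] at h5
  have h6 : ∀ i, ∑ k : T d L, adj k ^ i / (2 * d + μ) ^ (i + 1) =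
      NN d L * (walksT d L i / (2 * d + μ) ^ (i + 1)) := by
    intro i
    rw [← Finset.sum_div, sum_adj_pow]
    ring
  simp only [h6] at h5
  rw [← Finset.mul_sum] at h5
  have h7 : ∑ n ∈ Finset.range (2 * m), (walksT d L n : ℝ) / (2 * d + μ) ^ (n + 1) ≤ gT d L μ := by
    unfold gT
    rw [inv_mul_eq_div, le_div_iff₀ hN, mul_comm]
    exact h5
  refine le_trans ?_ h7
  refine Finset.sum_le_sum fun n _ => ?_
  apply div_le_div_of_nonneg_right _ (by positivity)
  exact_mod_cast walks_le n

/-- upper bound for the torus Green function -/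
theorem gT_le_walks (ν : ℝ) (hν : 0 < ν) (m : ℕ) (hm : m ≤ L) :
    gT d L ν ≤ ∑ n ∈ Finset.range m, (walks d n : ℝ) / (2 * d + ν) ^ (n + 1) +
      (2 * d / (2 * d + ν)) ^ m * ν⁻¹ := by
  have hN : 0 < NN d L := NN_pos
  have ha : 0 < 2 * (d : ℝ) + ν := by positivity
  have h1 : ∀ k : T d L, (ep k + ν)⁻¹ ≤
      ∑ i ∈ Finset.range m, adj k ^ i / (2 * d + ν) ^ (i + 1) +
        (2 * d / (2 * d + ν)) ^ m * ν⁻¹ := by
    intro k
    have h2 := geom (2 * d + ν) (adj k) m ha (adj_lt k ν hν)
    have h3 : ep k + ν = 2 * d + ν - adj k := by unfold ep; ring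
    rw [h3, h2]
    have h4 : (adj k / (2 * d + ν)) ^ m * (2 * d + ν - adj k)⁻¹ ≤
        (2 * d / (2 * d + ν)) ^ m * ν⁻¹ := by
      have h5 : (adj k / (2 * d + ν)) ^ m ≤ (2 * d / (2 * d + ν)) ^ m := by
        refine (le_abs_self _).trans ?_
        rw [abs_pow, abs_div, abs_of_pos ha]
        apply pow_le_pow_left₀ (by positivity)
        apply div_le_div_of_nonneg_right _ ha.le
        exact Pool.Agent.W788.MFP.Form.adj_abs k
      have h6 : (2 * d + ν - adj k)⁻¹ ≤ ν⁻¹ := by
        apply inv_anti₀ hν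
        have h := ep_nonneg k
        unfold ep at h
        linarith
      have h7 : 0 ≤ (2 * d + ν - adj k)⁻¹ := by
        rw [inv_nonneg]
        linarith [adj_lt k ν hν]
      exact mul_le_mul h5 h6 h7 (by positivity)
    linarith
  have h5 := Finset.sum_le_sum fun (k : T d L) (_ : k ∈ Finset.univ) => h1 k
  rw [Finset.sum_add_distrib, Finset.sum_comm, Finset.sum_const, Finset.card_univ, nsmul_eq_mul,
    card_T] at h5
  have h6 : ∀ i ∈ Finset.range m, ∑ k : T d L, adj k ^ i / (2 * d + ν) ^ (i + 1) =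
      NN d L * (walks d i / (2 * d + ν) ^ (i + 1)) := by
    intro i hi
    rw [← Finset.sum_div, sum_adj_pow, walksT_eq i (by have := Finset.mem_range.1 hi; omega)]
    ring
  rw [Finset.sum_congr rfl h6, ← Finset.mul_sum, ← mul_add] at h5
  unfold gT
  rw [inv_mul_le_iff₀ hN]
  exact h5

end Pool.Agent.L5helper95.BE
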